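import Mathlib

/-!
Definitions for stationary Gaussian fields on the lattice: lattice balls, the Fourier transform of
`g dμ`, the capacity and the equilibrium potential in the RKHS of the spectral measure `μ`.
-/

open MeasureTheory

namespace Pool.Agent.Lib.MP_ecc084_pr

/-- A lattice point viewed as a point of Euclidean space. -/
noncomputable def emb {d : ℕ} (x : Fin d → ℤ) : EuclideanSpace ℝ (Fin d) :=
  WithLp.toLp 2 (fun i => (x i : ℝ))

/-- The lattice points of the closed Euclidean ball of radius `T` centred at the origin. -/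
def latBall (d : ℕ) (T : ℝ) : Set (Fin d → ℤ) := {x | ‖emb x‖ ≤ T}

/-- The Fourier transform of the measure `g dμ` at the lattice point `x`. -/
noncomputable def fourierOf {d : ℕ} (μ : Measure (EuclideanSpace ℝ (Fin d)))
    (g : EuclideanSpace ℝ (Fin d) → ℂ) (x : Fin d → ℤ) : ℂ :=
  ∫ l, g l * Complex.exp (-((inner ℝ l (emb x) : ℝ) : ℂ) * Complex.I) ∂μ

/-- `h` is the element `F[g dμ]` of the RKHS (whose norm is the `L²(μ)` norm of `g`), and
`h ≥ 1` on `D`. -/
def Feasible {d : ℕ} (μ : Measure (EuclideanSpace ℝ (Fin d))) (D : Set (Fin d → ℤ))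
    (g : Lp ℂ 2 μ) (h : (Fin d → ℤ) → ℝ) : Prop :=
  (∀ x, fourierOf μ g x = (h x : ℂ)) ∧ ∀ x ∈ D, 1 ≤ h x

/-- The capacity of `D`: the least squared RKHS norm of an `h` with `h ≥ 1` on `D`. -/
noncomputable def cap {d : ℕ} (μ : Measure (EuclideanSpace ℝ (Fin d))) (D : Set (Fin d → ℤ)) : ℝ :=
  sInf {c | ∃ (g : Lp ℂ 2 μ) (h : (Fin d → ℤ) → ℝ), Feasible μ D g h ∧ c = ‖g‖ ^ 2}

/-- `h` is an equilibrium potential of `D`: an element of the RKHS with `h ≥ 1` on `D` whose
squared norm is the capacity of `D`. -/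
def IsEqPot {d : ℕ} (μ : Measure (EuclideanSpace ℝ (Fin d))) (D : Set (Fin d → ℤ))
    (h : (Fin d → ℤ) → ℝ) : Prop :=
  ∃ g : Lp ℂ 2 μ, Feasible μ D g h ∧ ‖g‖ ^ 2 = cap μ D

end Pool.Agent.Lib.MP_ecc084_pr
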