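import Mathlib

-- part Pool.Agent.Lib.MP_ecc084_pr.OneDim
section

/-!
The one dimensional factors of the spectral measure: Lebesgue measure on `[-π, π]` and the measure
with density `|t|^(-1/2)` on `[-π, π]`.
-/

open MeasureTheory Set Real

namespace Pool.Agent.Lib.MP_ecc084_pr

/-- Lebesgue measure on `[-π, π]`. -/
noncomputable def nu1 : Measure ℝ := volume.restrict (Icc (-π) π)

/-- The density `|t|^(-1/2)`. -/
noncomputable def rho (t : ℝ) : ENNReal := ENNReal.ofReal ((√|t|)⁻¹)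

/-- The measure with density `|t|^(-1/2)` on `[-π, π]`. -/
noncomputable def nu2 : Measure ℝ := nu1.withDensity rho

lemma measurable_rho : Measurable rho := by
  unfold rho
  fun_prop

lemma even_density {r : ℝ → ENNReal} (hr : ∀ t, r (-t) = r t) :
    (volume.withDensity r).map (fun t => -t) = volume.withDensity r := by
  ext s hs
  rw [Measure.map_apply measurable_neg hs, withDensity_apply _ hs,
    withDensity_apply _ (measurable_neg hs), ← lintegral_indicator hs,
    ← lintegral_indicator (measurable_neg hs), ← lintegral_neg_eq_self (s.indicator r)]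
  congr 1
  ext t
  by_cases h : -t ∈ s
  · rw [indicator_of_mem h, indicator_of_mem (by exact h), hr]
  · rw [indicator_of_notMem h, indicator_of_notMem (by exact h)]

lemma indicator_even {r : ℝ → ENNReal} (hr : ∀ t, r (-t) = r t) (t : ℝ) :
    (Icc (-π) π).indicator r (-t) = (Icc (-π) π).indicator r t := by
  by_cases h : t ∈ Icc (-π) π
  · have h' : -t ∈ Icc (-π) π := ⟨by linarith [h.2], by linarith [h.1]⟩
    rw [indicator_of_mem h, indicator_of_mem h', hr]
  · have h' : -t ∉ Icc (-π) π := fun h' => h ⟨by linarith [h'.2], by linarith [h'.1]⟩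
    rw [indicator_of_notMem h, indicator_of_notMem h']

lemma rho_neg (t : ℝ) : rho (-t) = rho t := by simp [rho]

lemma nu1_symm : nu1.map (fun t => -t) = nu1 := by
  unfold nu1
  rw [← withDensity_indicator_one measurableSet_Icc]
  exact even_density (indicator_even (fun _ => rfl))

lemma nu2_symm : nu2.map (fun t => -t) = nu2 := by
  unfold nu2 nu1
  rw [← withDensity_indicator measurableSet_Icc]
  exact even_density (indicator_even rho_neg)

instance : IsFiniteMeasure nu1 := by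
  unfold nu1
  infer_instance

lemma nu1_le : nu1 ≤ volume := Measure.restrict_le_self

lemma nu1_ac : nu1 ≪ volume := nu1_le.absolutelyContinuous

lemma nu2_ac : nu2 ≪ volume := (withDensity_absolutelyContinuous _ _).trans nu1_ac

lemma nu1_compl : nu1 (Icc (-π) π)ᶜ = 0 := by
  unfold nu1
  rw [Measure.restrict_apply measurableSet_Icc.compl]
  simp

lemma nu2_compl : nu2 (Icc (-π) π)ᶜ = 0 := withDensity_absolutelyContinuous _ _ nu1_compl

lemma nu1_univ : nu1 univ = ENNReal.ofReal (2 * π) := by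
  unfold nu1
  rw [Measure.restrict_apply MeasurableSet.univ, univ_inter, Real.volume_Icc]
  congr 1
  ring

lemma nu1_Icc {δ : ℝ} (h : δ ≤ π) : nu1 (Icc (-δ) δ) = ENNReal.ofReal (2 * δ) := by
  unfold nu1
  rw [Measure.restrict_apply measurableSet_Icc,
    inter_eq_left.2 (Icc_subset_Icc (by linarith) h), Real.volume_Icc]
  congr 1
  ring

lemma W_Icc {δ : ℝ} (h : 0 < δ) :
    volume.withDensity rho (Icc 0 δ) = ENNReal.ofReal (2 * √δ) := by
  rw [withDensity_apply _ measurableSet_Icc]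
  have h1 : ∫⁻ t in Icc 0 δ, rho t = ∫⁻ t in Ioc 0 δ, ENNReal.ofReal (t ^ (-(1 / 2) : ℝ)) := by
    rw [← Measure.restrict_congr_set Ioc_ae_eq_Icc]
    refine setLIntegral_congr_fun measurableSet_Ioc (fun t ht => ?_)
    simp only [rho]
    rw [abs_of_pos ht.1, Real.rpow_neg ht.1.le, Real.sqrt_eq_rpow]
  have hint : IntegrableOn (fun t : ℝ => t ^ (-(1 / 2) : ℝ)) (Ioc 0 δ) :=
    (intervalIntegral.intervalIntegrable_rpow' (a := 0) (b := δ) (by norm_num)).1
  rw [h1, ← ofReal_integral_eq_lintegral_ofReal hint, ← intervalIntegral.integral_of_le h.le,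
    integral_rpow (Or.inl (by norm_num))]
  · congr 1
    rw [Real.sqrt_eq_rpow]
    norm_num
    ring
  · filter_upwards [ae_restrict_mem measurableSet_Ioc] with t ht
    exact Real.rpow_nonneg ht.1.le _

lemma nu2_Icc_le {δ : ℝ} (h : 0 < δ) : nu2 (Icc (-δ) δ) ≤ ENNReal.ofReal (4 * √δ) := by
  have h1 : nu2 ≤ volume.withDensity rho := by
    unfold nu2 nu1
    rw [← withDensity_indicator measurableSet_Icc]
    exact withDensity_mono (Filter.Eventually.of_forall (fun t => indicator_le_self _ _ t))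
  have h2 : volume.withDensity rho (Icc (-δ) 0) = ENNReal.ofReal (2 * √δ) := by
    rw [← even_density rho_neg, Measure.map_apply measurable_neg measurableSet_Icc, ← W_Icc h]
    congr 1
    ext t
    simp only [mem_preimage, mem_Icc]
    constructor <;> rintro ⟨a, b⟩ <;> constructor <;> linarith
  calc nu2 (Icc (-δ) δ) ≤ volume.withDensity rho (Icc (-δ) δ) := h1 _
    _ ≤ volume.withDensity rho (Icc (-δ) 0 ∪ Icc 0 δ) := by
        refine measure_mono (fun t ht => ?_)
        rcases le_total t 0 with h0 | h0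
        · exact Or.inl ⟨ht.1, h0⟩
        · exact Or.inr ⟨h0, ht.2⟩
    _ ≤ volume.withDensity rho (Icc (-δ) 0) + volume.withDensity rho (Icc 0 δ) :=
        measure_union_le _ _
    _ = ENNReal.ofReal (4 * √δ) := by
        rw [h2, W_Icc h, ← ENNReal.ofReal_add (by positivity) (by positivity)]
        congr 1
        ring

instance : IsFiniteMeasure nu2 := by
  refine ⟨?_⟩
  rw [← measure_add_measure_compl (measurableSet_Icc (a := -π) (b := π)), nu2_compl, add_zero]
  exact lt_of_le_of_lt (nu2_Icc_le pi_pos) ENNReal.ofReal_lt_top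

lemma nu2_le {δ : ℝ} (h : 0 < δ) :
    nu2 ≤ nu2.restrict (Icc (-δ) δ) + ENNReal.ofReal ((√δ)⁻¹) • nu1 := by
  unfold nu2
  rw [restrict_withDensity measurableSet_Icc, ← withDensity_indicator measurableSet_Icc,
    ← withDensity_const, ← withDensity_add_left (measurable_rho.indicator measurableSet_Icc)]
  refine withDensity_mono (Filter.Eventually.of_forall (fun t => ?_))
  by_cases ht : t ∈ Icc (-δ) δ
  · simp only [Pi.add_apply, indicator_of_mem ht]
    exact le_self_add
  · simp only [Pi.add_apply, indicator_of_notMem ht, zero_add, rho]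
    refine ENNReal.ofReal_le_ofReal (inv_anti₀ (Real.sqrt_pos.2 h) (Real.sqrt_le_sqrt ?_))
    by_contra hc
    exact ht (abs_le.1 (le_of_lt (not_le.1 hc)))

lemma le_nu2 {δ : ℝ} : ENNReal.ofReal ((√δ)⁻¹) • nu1.restrict (Icc (-δ) δ) ≤ nu2 := by
  unfold nu2
  rw [← withDensity_const, ← withDensity_indicator measurableSet_Icc]
  refine withDensity_mono ?_
  have h0 : ∀ᵐ t ∂nu1, t ≠ 0 := nu1_ac.ae_le (by
    have := Measure.ae_ne (volume : Measure ℝ) 0
    exact this)
  filter_upwards [h0] with t ht0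
  by_cases ht : t ∈ Icc (-δ) δ
  · rw [indicator_of_mem ht, rho]
    exact ENNReal.ofReal_le_ofReal (inv_anti₀ (Real.sqrt_pos.2 (abs_pos.2 ht0))
      (Real.sqrt_le_sqrt (abs_le.2 ht)))
  · rw [indicator_of_notMem ht]
    exact zero_le

lemma le_nu2_pi : ENNReal.ofReal ((√π)⁻¹) • nu1 ≤ nu2 := by
  have h := le_nu2 (δ := π)
  have h2 : nu1.restrict (Icc (-π) π) = nu1 := by
    unfold nu1
    rw [Measure.restrict_restrict measurableSet_Icc, inter_self]
  rwa [h2] at h

lemma nu2_Icc_ge {δ : ℝ} (h : 0 < δ) (h' : δ ≤ π) :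
    ENNReal.ofReal (2 * √δ) ≤ nu2 (Icc (-δ) δ) := by
  have h1 := le_nu2 (δ := δ) (Icc (-δ) δ)
  rw [Measure.smul_apply, Measure.restrict_apply measurableSet_Icc, inter_self, nu1_Icc h',
    smul_eq_mul, ← ENNReal.ofReal_mul (by positivity)] at h1
  refine le_trans (le_of_eq ?_) h1
  congr 1
  have : √δ * √δ = δ := Real.mul_self_sqrt h.le
  have h2 : √δ ≠ 0 := (Real.sqrt_pos.2 h).ne'
  field_simp
  nlinarith

lemma nu2_Icc_shift {δ : ℝ} (h : 0 < δ) (u : ℝ) :
    nu2 (Icc (u - δ) (u + δ)) ≤ ENNReal.ofReal (6 * √δ) := by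
  have h1 := nu2_le h (Icc (u - δ) (u + δ))
  rw [Measure.add_apply, Measure.smul_apply, smul_eq_mul] at h1
  have h2 : nu2.restrict (Icc (-δ) δ) (Icc (u - δ) (u + δ)) ≤ ENNReal.ofReal (4 * √δ) := by
    rw [Measure.restrict_apply measurableSet_Icc]
    exact (measure_mono inter_subset_right).trans (nu2_Icc_le h)
  have h3 : nu1 (Icc (u - δ) (u + δ)) ≤ ENNReal.ofReal (2 * δ) := by
    refine (nu1_le _).trans (le_of_eq ?_)
    rw [Real.volume_Icc]
    congr 1
    ring
  refine h1.trans ((add_le_add h2 (mul_le_mul_right h3 _)).trans (le_of_eq ?_))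
  rw [← ENNReal.ofReal_mul (by positivity), ← ENNReal.ofReal_add (by positivity) (by positivity)]
  congr 1
  have : √δ * √δ = δ := Real.mul_self_sqrt h.le
  have h2 : √δ ≠ 0 := (Real.sqrt_pos.2 h).ne'
  field_simp
  nlinarith

lemma integral_sin_nu1 (n : ℝ) : ∫ t, Real.sin (t * n) ∂nu1 = 0 := by
  have h1 : ∫ t, Real.sin (t * n) ∂nu1 = ∫ t, Real.sin ((-t) * n) ∂nu1 := by
    conv_lhs => rw [← nu1_symm]
    rw [integral_map (by fun_prop) (by fun_prop)]
  simp only [neg_mul, Real.sin_neg, integral_neg] at h1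
  linarith

lemma integral_cos_nu1 (n : ℤ) :
    ∫ t, Real.cos (t * n) ∂nu1 = if n = 0 then 2 * π else 0 := by
  unfold nu1
  rw [integral_Icc_eq_integral_Ioc, ← intervalIntegral.integral_of_le (by linarith [pi_pos])]
  split_ifs with h
  · simp [h]
    ring
  · have hn : (n : ℝ) ≠ 0 := by exact_mod_cast h
    rw [intervalIntegral.integral_comp_mul_right (fun t => Real.cos t) hn, integral_cos,
      neg_mul, Real.sin_neg, mul_comm π, Real.sin_int_mul_pi]
    simp

end Pool.Agent.Lib.MP_ecc084_pr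
end

-- part Pool.Agent.Lib.MP_ecc084_pr.Gauss
section

/-!
Existence of a centred Gaussian process with a prescribed Gram covariance (countable index set),
by Gram-Schmidt orthogonalisation: every coordinate is a finite combination of i.i.d. normals.
-/

open MeasureTheory ProbabilityTheory Finset
open scoped InnerProductSpace

namespace Pool.Agent.Lib.MP_ecc084_pr

lemma exists_coords {H : Type*} [NormedAddCommGroup H] [InnerProductSpace ℝ H] (ψ : ℕ → H) :
    ∃ u : ℕ → H, (∀ n w, ⟪ψ n, w⟫_ℝ = ∑ i ∈ range (n + 1), ⟪u i, ψ n⟫_ℝ * ⟪u i, w⟫_ℝ) ∧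
      ∀ n i, n < i → ⟪u i, ψ n⟫_ℝ = 0 := by
  set g := InnerProductSpace.gramSchmidt ℝ ψ with hg
  refine ⟨fun i => (‖g i‖⁻¹) • g i, ?_, ?_⟩
  · intro n w
    have h1 := InnerProductSpace.gramSchmidt_def'' ℝ ψ n
    rw [← hg] at h1
    have h2 : ⟪g n, ψ n⟫_ℝ = ‖g n‖ ^ 2 := by
      conv_lhs => rw [h1]
      rw [inner_add_right, inner_sum, real_inner_self_eq_norm_sq, sum_eq_zero, add_zero]
      intro i hi
      rw [inner_smul_right, InnerProductSpace.gramSchmidt_orthogonal ℝ ψ
        (ne_of_gt (mem_Iio.1 hi)), mul_zero]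
    have h3 : ∀ i, ⟪(‖g i‖⁻¹) • g i, ψ n⟫_ℝ * ⟪(‖g i‖⁻¹) • g i, w⟫_ℝ =
        ⟪g i, ψ n⟫_ℝ / ‖g i‖ ^ 2 * ⟪g i, w⟫_ℝ := by
      intro i
      rw [real_inner_smul_left, real_inner_smul_left]
      ring
    simp only [h3]
    rw [sum_range_succ, h2]
    conv_lhs => rw [h1]
    rw [inner_add_left, sum_inner, add_comm, Nat.Iio_eq_range]
    congr 1
    · refine sum_congr rfl (fun i _ => ?_)
      rw [real_inner_smul_left]
      simp
    · by_cases h0 : g n = 0
      · simp [h0]
      · have : ‖g n‖ ^ 2 ≠ 0 := pow_ne_zero 2 (norm_ne_zero_iff.2 h0)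
        rw [div_self this, one_mul]
  · intro n i hi
    rw [real_inner_smul_left, hg, InnerProductSpace.gramSchmidt_inv_triangular ℝ ψ hi, mul_zero]

/-- The law of an i.i.d. sequence of standard normal variables. -/
noncomputable def iidNormal : Measure (ℕ → ℝ) :=
  Measure.infinitePi (fun _ : ℕ => gaussianReal 0 1)

instance : IsProbabilityMeasure iidNormal := by
  unfold iidNormal
  infer_instance

lemma hasLaw_coord (i : ℕ) : HasLaw (fun ω : ℕ → ℝ => ω i) (gaussianReal 0 1) iidNormal :=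
  MeasurePreserving.hasLaw (measurePreserving_eval_infinitePi (fun _ : ℕ => gaussianReal 0 1) i)

lemma iIndep_coord : iIndepFun (fun (i : ℕ) (ω : ℕ → ℝ) => ω i) iidNormal :=
  iIndepFun_infinitePi (P := fun _ : ℕ => gaussianReal 0 1) (X := fun _ x => x)
    (fun _ => measurable_id)

lemma isGaussianProcess_coord :
    IsGaussianProcess (fun (i : ℕ) (ω : ℕ → ℝ) => ω i) iidNormal where
  hasGaussianLaw I := by
    have h := (iIndep_coord.precomp (g := fun i : I => (i : ℕ)) Subtype.val_injective)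
    exact iIndepFun.hasGaussianLaw (X := fun (i : I) (ω : ℕ → ℝ) => ω i)
      (fun i => (hasLaw_coord i).hasGaussianLaw) h

lemma memLp_coord (i : ℕ) : MemLp (fun ω : ℕ → ℝ => ω i) 2 iidNormal :=
  ((hasLaw_coord i).hasGaussianLaw).memLp_two

lemma integral_coord (i : ℕ) : ∫ ω, ω i ∂iidNormal = 0 := by
  have := (hasLaw_coord i).integral_eq
  simpa using this

lemma integral_coord_mul (i j : ℕ) :
    ∫ ω, ω i * ω j ∂iidNormal = if i = j then 1 else 0 := by
  split_ifs with h
  · subst h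
    have h1 := (hasLaw_coord i).variance_eq
    rw [variance_id_gaussianReal, variance_eq_sub (memLp_coord i)] at h1
    simp only [integral_coord] at h1
    have h2 : ∫ ω, ω i * ω i ∂iidNormal = ∫ ω, ((fun ω : ℕ → ℝ => ω i) ^ 2) ω ∂iidNormal := by
      congr 1
      ext ω
      simp [sq]
    rw [h2]
    simpa using h1
  · have hind := iIndep_coord.indepFun h
    rw [hind.integral_fun_mul_eq_mul_integral (memLp_coord i).aestronglyMeasurable
      (memLp_coord j).aestronglyMeasurable, integral_coord, zero_mul]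

lemma iidNormal_open_ne_zero {U : Set (ℕ → ℝ)} (hU : IsOpen U) {z : ℕ → ℝ} (hz : z ∈ U) :
    iidNormal U ≠ 0 := by
  obtain ⟨I, u, hu, hsub⟩ := isOpen_pi_iff.1 hU z hz
  have hpos : (gaussianReal 0 1).IsOpenPosMeasure :=
    (gaussianReal_absolutelyContinuous' 0 one_ne_zero).isOpenPosMeasure
  have h1 : iidNormal (Set.pi I u) ≠ 0 := by
    unfold iidNormal
    rw [Measure.infinitePi_pi _ (fun i hi => (hu i hi).1.measurableSet)]
    exact prod_ne_zero_iff.2 (fun i hi => (hu i hi).1.measure_ne_zero _ ⟨z i, (hu i hi).2⟩)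
  exact fun h => h1 (measure_mono_null hsub h)

theorem exists_gaussian {ι H : Type*} [Countable ι] [Nonempty ι] [NormedAddCommGroup H]
    [InnerProductSpace ℝ H] (φ : ι → H) :
    ∃ f : ι → (ℕ → ℝ) → ℝ, (∀ x, Measurable (f x)) ∧ IsGaussianProcess f iidNormal ∧
      (∀ x, ∫ ω, f x ω ∂iidNormal = 0) ∧
      (∀ x y, ∫ ω, f x ω * f y ω ∂iidNormal = ⟪φ x, φ y⟫_ℝ) ∧
      ∀ D : Set ι, D.Finite → ∀ g : H, (∀ x ∈ D, 0 < ⟪φ x, g⟫_ℝ) →
        iidNormal {ω | ∀ x ∈ D, 0 ≤ f x ω} ≠ 0 := by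
  obtain ⟨e, he⟩ := exists_surjective_nat ι
  choose s hs using he
  obtain ⟨u, hu1, hu2⟩ := exists_coords (fun n => φ (e n))
  have hu1' : ∀ x w, ⟪φ x, w⟫_ℝ = ∑ i ∈ range (s x + 1), ⟪u i, φ x⟫_ℝ * ⟪u i, w⟫_ℝ := by
    intro x w
    have := hu1 (s x) w
    simpa only [hs] using this
  have hu2' : ∀ x i, s x < i → ⟪u i, φ x⟫_ℝ = 0 := by
    intro x i hi
    have := hu2 (s x) i hi
    simpa only [hs] using this
  refine ⟨fun x ω => ∑ i ∈ range (s x + 1), ⟪u i, φ x⟫_ℝ * ω i, ?_, ?_, ?_, ?_, ?_⟩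
  · intro x
    fun_prop
  · refine isGaussianProcess_coord.of_isGaussianProcess (fun x => ⟨range (s x + 1),
      ∑ i : range (s x + 1), ⟪u i, φ x⟫_ℝ • ContinuousLinearMap.proj i, fun ω => ?_⟩)
    simp only [ContinuousLinearMap.sum_apply, ContinuousLinearMap.smul_apply,
      ContinuousLinearMap.proj_apply, smul_eq_mul, Finset.restrict]
    exact (sum_coe_sort (range (s x + 1)) (fun i => ⟪u i, φ x⟫_ℝ * ω i)).symm
  · intro x
    rw [integral_finsetSum _ (fun i _ => ((memLp_coord i).integrable one_le_two).const_mul _)]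
    simp [integral_const_mul, integral_coord]
  · intro x y
    have hint : ∀ i j, Integrable (fun ω : ℕ → ℝ => ω i * ω j) iidNormal :=
      fun i j => (memLp_coord i).integrable_mul (memLp_coord j)
    have : ∀ ω : ℕ → ℝ, (∑ i ∈ range (s x + 1), ⟪u i, φ x⟫_ℝ * ω i) *
        (∑ j ∈ range (s y + 1), ⟪u j, φ y⟫_ℝ * ω j) =
        ∑ i ∈ range (s x + 1), ∑ j ∈ range (s y + 1),
          (⟪u i, φ x⟫_ℝ * ⟪u j, φ y⟫_ℝ) * (ω i * ω j) := by
      intro ω
      rw [sum_mul_sum]
      refine sum_congr rfl (fun i _ => sum_congr rfl (fun j _ => by ring))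
    simp only [this]
    rw [integral_finsetSum _ (fun i _ => integrable_finsetSum _
      (fun j _ => (hint i j).const_mul _)), hu1' x (φ y)]
    refine sum_congr rfl (fun i _ => ?_)
    rw [integral_finsetSum _ (fun j _ => (hint i j).const_mul _)]
    simp only [integral_const_mul, integral_coord_mul, mul_ite, mul_one, mul_zero, sum_ite_eq]
    split_ifs with h
    · rfl
    · rw [hu2' y i (by simpa using h), mul_zero]
  · intro D hD g hg
    have hopen : IsOpen {ω : ℕ → ℝ | ∀ x ∈ D,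
        0 < ∑ i ∈ range (s x + 1), ⟪u i, φ x⟫_ℝ * ω i} := by
      have : {ω : ℕ → ℝ | ∀ x ∈ D, 0 < ∑ i ∈ range (s x + 1), ⟪u i, φ x⟫_ℝ * ω i} =
          ⋂ x ∈ D, {ω : ℕ → ℝ | 0 < ∑ i ∈ range (s x + 1), ⟪u i, φ x⟫_ℝ * ω i} := by
        ext ω
        simp
      rw [this]
      exact hD.isOpen_biInter (fun x _ => isOpen_lt continuous_const (by fun_prop))
    have hne := iidNormal_open_ne_zero hopen (z := fun i => ⟪u i, g⟫_ℝ) (by
      intro x hx
      have := hg x hx
      rwa [hu1' x g] at this)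
    exact fun h => hne (measure_mono_null (fun ω hω x hx => (hω x hx).le) h)

end Pool.Agent.Lib.MP_ecc084_pr
end

-- part Pool.Agent.Lib.MP_ecc084_pr.Tip
section

/-!
The conditional mean of a coordinate that is uncorrelated with the other constrained coordinates.
-/

open MeasureTheory ProbabilityTheory Set

namespace Pool.Agent.Lib.MP_ecc084_pr

lemma cond_mean_indep {Ω β : Type*} [MeasurableSpace Ω] [MeasurableSpace β] {P : Measure Ω}
    [IsProbabilityMeasure P] {X : Ω → ℝ} {Y : Ω → β} (hX : Measurable X) (hY : Measurable Y)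
    (h : IndepFun X Y P) {B : Set β} (hB : MeasurableSet B) :
    |∫ ω, X ω ∂(P[|X ⁻¹' (Ici 0) ∩ Y ⁻¹' B])| ≤
      |((P.map X).real (Ici 0))⁻¹ * ∫ t, (Ici (0 : ℝ)).indicator id t ∂(P.map X)| := by
  have hA : MeasurableSet (X ⁻¹' (Ici 0)) := hX measurableSet_Ici
  have hB' : MeasurableSet (Y ⁻¹' B) := hY hB
  have hψ : Measurable ((Ici (0 : ℝ)).indicator (id : ℝ → ℝ)) :=
    measurable_id.indicator measurableSet_Ici
  have hχ : Measurable (B.indicator (fun _ => (1 : ℝ))) := measurable_const.indicator hB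
  have h1 : P (X ⁻¹' (Ici 0) ∩ Y ⁻¹' B) = P (X ⁻¹' (Ici 0)) * P (Y ⁻¹' B) :=
    h.measure_inter_preimage_eq_mul _ _ measurableSet_Ici hB
  have h2 : ∫ ω in X ⁻¹' (Ici 0) ∩ Y ⁻¹' B, X ω ∂P =
      (∫ t, (Ici (0 : ℝ)).indicator id t ∂(P.map X)) * P.real (Y ⁻¹' B) := by
    have h3 := (h.comp hψ hχ).integral_fun_mul_eq_mul_integral
      (hψ.comp hX).aestronglyMeasurable (hχ.comp hY).aestronglyMeasurable
    rw [integral_map hX.aemeasurable hψ.aestronglyMeasurable, ← integral_indicator (hA.inter hB')]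
    have h4 : ∫ ω, ((B.indicator (fun _ => (1 : ℝ))) ∘ Y) ω ∂P = P.real (Y ⁻¹' B) := by
      rw [← integral_indicator_one hB']
      rfl
    rw [← h4]
    refine Eq.trans ?_ h3
    congr 1
    ext ω
    by_cases ha : X ω ∈ Ici (0 : ℝ) <;> by_cases hb : Y ω ∈ B <;>
      simp [indicator, ha, hb]
  rw [ProbabilityTheory.cond, integral_smul_measure, h1, h2, smul_eq_mul, ENNReal.toReal_inv,
    ENNReal.toReal_mul, map_measureReal_apply hX measurableSet_Ici]
  simp only [← measureReal_def]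
  by_cases h0 : P.real (Y ⁻¹' B) = 0
  · simp [h0]
    positivity
  · apply le_of_eq
    congr 1
    field_simp

lemma tip_bound {ι Ω : Type*} [MeasurableSpace Ω] {P : Measure Ω}
    {f : ι → Ω → ℝ} (hm : ∀ x, Measurable (f x)) (hG : IsGaussianProcess f P)
    (h0 : ∀ x, ∫ ω, f x ω ∂P = 0) (v : ℝ) :
    ∃ C : ℝ, ∀ (D : Set ι) (x : ι), D.Countable → x ∈ D → ∫ ω, f x ω * f x ω ∂P = v →
      (∀ y ∈ D, y ≠ x → ∫ ω, f x ω * f y ω ∂P = 0) →
      |∫ ω, f x ω ∂(P[|{ω | ∀ y ∈ D, 0 ≤ f y ω}])| ≤ C := by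
  have := hG.isProbabilityMeasure
  refine ⟨|((gaussianReal 0 v.toNNReal).real (Ici 0))⁻¹ *
    ∫ t, (Ici (0 : ℝ)).indicator id t ∂(gaussianReal 0 v.toNNReal)|, ?_⟩
  intro D x hD hx hv hcov
  have hL2 : ∀ y, MemLp (f y) 2 P := fun y => (hG.hasGaussianLaw_eval y).memLp_two
  have hc : ∀ y, cov[f x, f y; P] = ∫ ω, f x ω * f y ω ∂P := by
    intro y
    rw [covariance_eq_sub (hL2 x) (hL2 y)]
    simp [h0]
  have hlaw : P.map (f x) = gaussianReal 0 v.toNNReal := by
    rw [(hG.hasGaussianLaw_eval x).map_eq_gaussianReal, h0,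
      ← covariance_self (hm x).aemeasurable, hc, hv]
  let R := {y : ι // y ∈ D ∧ y ≠ x}
  have : Countable R := (hD.mono (fun y (hy : y ∈ D ∧ y ≠ x) => hy.1)).to_subtype
  have hjoint : IsGaussianProcess
      (Sum.elim (fun _ : Unit => f x) (fun y : R => f y)) P := by
    have h1 := hG.comp_right (Sum.elim (fun _ : Unit => x) (fun y : R => (y : ι)))
    have h2 : (Sum.elim (fun _ : Unit => f x) (fun y : R => f y)) =
        f ∘ (Sum.elim (fun _ : Unit => x) (fun y : R => (y : ι))) := by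
      ext s ω
      cases s <;> rfl
    rw [h2]
    exact h1
  have hind := hjoint.indepFun_of_covariance_eq_zero (fun _ => (hm x).aemeasurable)
    (fun y => (hm y).aemeasurable) (fun _ y => by rw [hc, hcov y y.2.1 y.2.2])
  have hind' : IndepFun (f x) (fun ω (y : R) => f y ω) P :=
    hind.comp (φ := fun w : Unit → ℝ => w ()) (ψ := id) (measurable_pi_apply ()) measurable_id
  have hB : MeasurableSet {w : R → ℝ | ∀ y, 0 ≤ w y} := by
    have : {w : R → ℝ | ∀ y, 0 ≤ w y} = ⋂ y, {w : R → ℝ | 0 ≤ w y} := by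
      ext w
      simp
    rw [this]
    exact MeasurableSet.iInter (fun y => measurableSet_le measurable_const (measurable_pi_apply y))
  have hmain := cond_mean_indep (hm x) (measurable_pi_lambda _ (fun y : R => hm y)) hind' hB
  rw [hlaw] at hmain
  have hset : {ω | ∀ y ∈ D, 0 ≤ f y ω} =
      f x ⁻¹' (Ici 0) ∩ (fun ω (y : R) => f y ω) ⁻¹' {w : R → ℝ | ∀ y, 0 ≤ w y} := by
    ext ω
    constructor
    · intro h
      exact ⟨h x hx, fun y => h y y.2.1⟩
    · rintro ⟨h1, h2⟩ y hy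
      by_cases hyx : y = x
      · rw [hyx]
        exact h1
      · exact h2 ⟨y, hy, hyx⟩
  rw [hset]
  exact hmain

end Pool.Agent.Lib.MP_ecc084_pr
end
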