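import Mathlib
import Pool.Agent.Lib.MP_ecc084_pr.Defs
import Pool.Agent.Lib.MP_ecc084_pr.Tip

-- part Pool.Agent.Lib.MP_ecc084_pr.Abstract
section

/-!
Abstract capacity estimates for a kernel on the square lattice with orthogonal columns.
-/

open Finset Filter Topology
open scoped InnerProductSpace

namespace Pool.Agent.Lib.MP_ecc084_pr

section Min

variable {ι H : Type*} [NormedAddCommGroup H] [InnerProductSpace ℝ H]

/-- The minimal norm vector with `⟪φ x, g⟫ ≥ 1` on a finite set lies in the span. -/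
lemma exists_min_span [CompleteSpace H] (φ : ι → H) (D : Finset ι) (g0 : H)
    (h0 : ∀ x ∈ D, 1 ≤ ⟪φ x, g0⟫_ℝ) :
    ∃ c : ι → ℝ, (∀ x ∈ D, 1 ≤ ⟪φ x, ∑ y ∈ D, c y • φ y⟫_ℝ) ∧
      ∀ g : H, (∀ x ∈ D, 1 ≤ ⟪φ x, g⟫_ℝ) → ‖∑ y ∈ D, c y • φ y‖ ≤ ‖g‖ := by
  let K : Set H := {g | ∀ x ∈ D, 1 ≤ ⟪φ x, g⟫_ℝ}
  have hKc : IsClosed K := by
    have : K = ⋂ x ∈ D, {g : H | 1 ≤ ⟪φ x, g⟫_ℝ} := by
      ext g
      simp [K]
    rw [this]
    exact isClosed_biInter (fun x _ => isClosed_le continuous_const (by fun_prop))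
  have hKconv : Convex ℝ K := by
    intro a ha b hb s t hs ht hst x hx
    rw [inner_add_right, real_inner_smul_right, real_inner_smul_right]
    have h1 := ha x hx
    have h2 := hb x hx
    nlinarith
  obtain ⟨v, hv, hvmin⟩ := exists_norm_eq_iInf_of_complete_convex (K := K) ⟨g0, h0⟩
    hKc.isComplete hKconv 0
  have hvle : ∀ g ∈ K, ‖v‖ ≤ ‖g‖ := by
    intro g hg
    have : (⨅ w : K, ‖(0 : H) - w‖) ≤ ‖(0 : H) - (⟨g, hg⟩ : K)‖ :=
      ciInf_le ⟨0, Set.forall_mem_range.2 fun _ => norm_nonneg _⟩ _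
    rw [← hvmin] at this
    simpa using this
  let W : Submodule ℝ H := Submodule.span ℝ (φ '' (D : Set ι))
  have : FiniteDimensional ℝ W :=
    FiniteDimensional.span_of_finite ℝ (D.finite_toSet.image φ)
  obtain ⟨c, hc⟩ := (Submodule.mem_span_image_finset_iff_exists_fun' ℝ).1
    (W.starProjection_apply_mem v)
  refine ⟨c, ?_, ?_⟩
  · intro x hx
    rw [hc]
    have hxW : φ x ∈ W := Submodule.subset_span ⟨x, hx, rfl⟩
    have h1 := W.starProjection_inner_eq_zero v (φ x) hxW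
    rw [inner_sub_left, sub_eq_zero, real_inner_comm, real_inner_comm (φ x)] at h1
    rw [← h1]
    exact hv x hx
  · intro g hg
    rw [hc]
    exact (W.norm_starProjection_apply_le v).trans (hvle g hg)

lemma inner_sum_smul (v : H) (ψ : ι → H) (c : ι → ℝ) (A : Finset ι) :
    ⟪v, ∑ y ∈ A, c y • ψ y⟫_ℝ = ∑ y ∈ A, c y * ⟪v, ψ y⟫_ℝ := by
  rw [inner_sum]
  simp only [real_inner_smul_right]

lemma inner_sum_sum {κ : Type*} (ψ : ι → H) (c : ι → ℝ) (A : Finset ι)
    (χ : κ → H) (e : κ → ℝ) (B : Finset κ) :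
    ⟪∑ x ∈ A, c x • ψ x, ∑ y ∈ B, e y • χ y⟫_ℝ =
      ∑ x ∈ A, ∑ y ∈ B, c x * e y * ⟪ψ x, χ y⟫_ℝ := by
  rw [sum_inner]
  refine sum_congr rfl (fun x _ => ?_)
  rw [real_inner_smul_left, inner_sum_smul, mul_sum]
  refine sum_congr rfl (fun y _ => by ring)

lemma norm_sq_sum_orth (w : ι → H) (A : Finset ι)
    (h : ∀ i ∈ A, ∀ j ∈ A, i ≠ j → ⟪w i, w j⟫_ℝ = 0) :
    ‖∑ i ∈ A, w i‖ ^ 2 = ∑ i ∈ A, ‖w i‖ ^ 2 := by
  rw [← real_inner_self_eq_norm_sq, sum_inner]
  refine sum_congr rfl (fun i hi => ?_)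
  rw [inner_sum, sum_eq_single i, real_inner_self_eq_norm_sq]
  · intro j hj hji
    exact h i hi j hj (Ne.symm hji)
  · intro h'
    exact absurd hi h'

end Min

lemma mem_latBall_iff {T : ℝ} (hT : 0 ≤ T) (x : Fin 2 → ℤ) :
    x ∈ latBall 2 T ↔ (x 0 : ℝ) ^ 2 + (x 1 : ℝ) ^ 2 ≤ T ^ 2 := by
  simp only [latBall, Set.mem_ofPred_eq, EuclideanSpace.norm_eq, emb, Fin.sum_univ_two,
    Real.norm_eq_abs, sq_abs]
  rw [Real.sqrt_le_left hT]

lemma latBall_mono {T T' : ℝ} (h : T ≤ T') : latBall 2 T ⊆ latBall 2 T' :=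
  fun _ hx => le_trans hx h

lemma finite_box (L : ℕ) : {x : Fin 2 → ℤ | ∀ i, |x i| ≤ L}.Finite := by
  have : {x : Fin 2 → ℤ | ∀ i, |x i| ≤ L} = Set.pi Set.univ (fun _ => Set.Icc (-(L : ℤ)) L) := by
    ext x
    simp [abs_le, forall_and, Pi.le_def]
  rw [this]
  exact Set.Finite.pi (fun _ => Set.finite_Icc _ _)

lemma abs_le_of_mem_latBall {T : ℝ} {x : Fin 2 → ℤ} (hx : x ∈ latBall 2 T) (i : Fin 2) :
    |(x i : ℝ)| ≤ T := by
  have h1 : ‖emb x i‖ ≤ ‖emb x‖ := PiLp.norm_apply_le (emb x) i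
  have h2 : emb x i = (x i : ℝ) := rfl
  rw [h2, Real.norm_eq_abs] at h1
  exact h1.trans hx

lemma finite_latBall (T : ℝ) : (latBall 2 T).Finite := by
  refine (finite_box ⌈T⌉₊).subset (fun x hx i => ?_)
  have h1 := (abs_le_of_mem_latBall hx i).trans (Nat.le_ceil T)
  exact_mod_cast h1

/-- A column segment. -/
def col (L : ℕ) : Set (Fin 2 → ℤ) := {x | x 0 = 0 ∧ |x 1| ≤ L}

lemma finite_col (L : ℕ) : (col L).Finite := by
  refine (finite_box L).subset (fun x hx i => ?_)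
  fin_cases i
  · simp [hx.1]
  · simpa using hx.2

section Cap

variable {H : Type*} [NormedAddCommGroup H] [InnerProductSpace ℝ H]
  (φ : (Fin 2 → ℤ) → H) (K : (Fin 2 → ℤ) → ℝ) (cp : Set (Fin 2 → ℤ) → ℝ)
  (hK : ∀ x y, ⟪φ x, φ y⟫_ℝ = K (x - y)) (hK0 : ∀ z, z 0 ≠ 0 → K z = 0)
  (hP1 : ∀ D : Finset (Fin 2 → ℤ), ∃ c : (Fin 2 → ℤ) → ℝ,
    (∀ x ∈ D, 1 ≤ ⟪φ x, ∑ y ∈ D, c y • φ y⟫_ℝ) ∧ cp D = ‖∑ y ∈ D, c y • φ y‖ ^ 2)
  (hP2 : ∀ D : Set (Fin 2 → ℤ), D.Finite → ∀ g : H, (∀ x ∈ D, 1 ≤ ⟪φ x, g⟫_ℝ) → cp D ≤ ‖g‖ ^ 2)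

include hP1 hP2 in
lemma cp_mono {D D' : Set (Fin 2 → ℤ)} (hD' : D'.Finite) (h : D ⊆ D') : cp D ≤ cp D' := by
  obtain ⟨c, hc1, hc2⟩ := hP1 hD'.toFinset
  rw [Set.Finite.coe_toFinset] at hc2
  rw [hc2]
  exact hP2 D (hD'.subset h) _ (fun x hx => hc1 x (hD'.mem_toFinset.2 (h hx)))

include hK hK0 hP1 hP2 in
/-- Rearrangement of columns. -/
lemma cp_shift {T T' : ℝ} (hT : 0 ≤ T) (hT' : 0 ≤ T') (a L : ℕ)
    (ha : T' ^ 2 ≤ T ^ 2 + (a : ℝ) ^ 2) (hL : T' ≤ L) :
    cp (latBall 2 T') ≤ cp (latBall 2 T) + 2 * a * cp (col L) := by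
  obtain ⟨c, hc1, hc2⟩ := hP1 (finite_latBall T).toFinset
  obtain ⟨e, he1, he2⟩ := hP1 (finite_col L).toFinset
  rw [Set.Finite.coe_toFinset] at hc2 he2
  set A := (finite_latBall T).toFinset with hA
  set C := (finite_col L).toFinset with hC
  let s : (Fin 2 → ℤ) → (Fin 2 → ℤ) := fun y => ![if 0 ≤ y 0 then y 0 + a else y 0 - a, y 1]
  let t : ℤ → (Fin 2 → ℤ) → (Fin 2 → ℤ) := fun j y => ![j, y 1]
  have hss : ∀ x y, ⟪φ (s x), φ (s y)⟫_ℝ = ⟪φ x, φ y⟫_ℝ := by
    intro x y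
    rw [hK, hK]
    by_cases h : x 0 = y 0
    · congr 1
      ext i
      fin_cases i
      · simp [s, h]
      · simp [s]
    · rw [hK0, hK0]
      · simpa [sub_eq_zero] using h
      · simp only [s, Pi.sub_apply, Matrix.cons_val_zero]
        split_ifs <;> omega
  have htt : ∀ j, ∀ x ∈ C, ∀ y ∈ C, ⟪φ (t j x), φ (t j y)⟫_ℝ = ⟪φ x, φ y⟫_ℝ := by
    intro j x hx y hy
    have hx0 : x 0 = 0 := ((finite_col L).mem_toFinset.1 hx).1
    have hy0 : y 0 = 0 := ((finite_col L).mem_toFinset.1 hy).1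
    rw [hK, hK]
    congr 1
    ext i
    fin_cases i
    · simp [t, hx0, hy0]
    · simp [t]
  have htt' : ∀ j j' x y, j ≠ j' → ⟪φ (t j x), φ (t j' y)⟫_ℝ = 0 := by
    intro j j' x y h
    rw [hK, hK0]
    simpa [t, sub_eq_zero] using h
  have hst : ∀ j ∈ Ico (-(a : ℤ)) a, ∀ x y, ⟪φ (s x), φ (t j y)⟫_ℝ = 0 := by
    intro j hj x y
    rw [mem_Ico] at hj
    rw [hK, hK0]
    simp only [s, t, Pi.sub_apply, Matrix.cons_val_zero]
    split_ifs <;> omega
  set g1 : H := ∑ y ∈ A, c y • φ (s y) with hg1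
  set g2 : ℤ → H := fun j => ∑ y ∈ C, e y • φ (t j y) with hg2
  have hn1 : ‖g1‖ ^ 2 = cp (latBall 2 T) := by
    rw [hc2, ← real_inner_self_eq_norm_sq, ← real_inner_self_eq_norm_sq, hg1, inner_sum_sum,
      inner_sum_sum]
    simp only [hss]
  have hn2 : ∀ j, ‖g2 j‖ ^ 2 = cp (col L) := by
    intro j
    rw [he2, ← real_inner_self_eq_norm_sq, ← real_inner_self_eq_norm_sq, hg2, inner_sum_sum,
      inner_sum_sum]
    refine sum_congr rfl (fun x hx => sum_congr rfl (fun y hy => ?_))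
    rw [htt j x hx y hy]
  have h12 : ⟪g1, ∑ j ∈ Ico (-(a : ℤ)) a, g2 j⟫_ℝ = 0 := by
    rw [inner_sum]
    refine sum_eq_zero (fun j hj => ?_)
    rw [hg1, hg2, inner_sum_sum]
    exact sum_eq_zero (fun x _ => sum_eq_zero (fun y _ => by rw [hst j hj, mul_zero]))
  have hn3 : ‖∑ j ∈ Ico (-(a : ℤ)) a, g2 j‖ ^ 2 = 2 * a * cp (col L) := by
    rw [norm_sq_sum_orth]
    · simp only [hn2, sum_const, Int.card_Ico, nsmul_eq_mul]
      congr 1
      have : ((a : ℤ) - -(a : ℤ)).toNat = 2 * a := by omega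
      rw [this]
      push_cast
      ring
    · intro i _ j _ hij
      rw [hg2, inner_sum_sum]
      exact sum_eq_zero (fun x _ => sum_eq_zero (fun y _ => by rw [htt' i j x y hij, mul_zero]))
  have hnorm : ‖g1 + ∑ j ∈ Ico (-(a : ℤ)) a, g2 j‖ ^ 2 =
      cp (latBall 2 T) + 2 * a * cp (col L) := by
    rw [norm_add_sq_real, h12, hn1, hn3]
    ring
  rw [← hnorm]
  refine hP2 _ (finite_latBall T') _ (fun x' hx' => ?_)
  have hx'' := (mem_latBall_iff hT' x').1 hx'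
  rw [inner_add_right]
  by_cases hcase : x' 0 ∈ Ico (-(a : ℤ)) a
  · set x : Fin 2 → ℤ := ![0, x' 1] with hx
    have hxC : x ∈ C := by
      refine (finite_col L).mem_toFinset.2 ⟨by simp [hx], ?_⟩
      have h1 := (abs_le_of_mem_latBall hx' 1).trans hL
      simp only [hx, Matrix.cons_val_one, Matrix.cons_val_zero]
      exact_mod_cast h1
    have hxe : x' = t (x' 0) x := by
      ext i
      fin_cases i <;> simp [t, hx]
    have e1 : ⟪φ x', g1⟫_ℝ = 0 := by
      rw [hg1, inner_sum_smul]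
      refine sum_eq_zero (fun y _ => ?_)
      rw [hxe, real_inner_comm, hst _ hcase, mul_zero]
    have e2 : ⟪φ x', ∑ j ∈ Ico (-(a : ℤ)) a, g2 j⟫_ℝ = ⟪φ x, ∑ y ∈ C, e y • φ y⟫_ℝ := by
      rw [inner_sum, sum_eq_single (x' 0)]
      · rw [hg2, inner_sum_smul, inner_sum_smul]
        refine sum_congr rfl (fun y hy => ?_)
        conv_lhs => rw [hxe]
        simp only [t, Matrix.cons_val_zero]
        rw [← htt (x' 0) x hxC y hy]
      · intro j _ hj
        rw [hg2, inner_sum_smul]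
        refine sum_eq_zero (fun y _ => ?_)
        rw [hxe, htt' _ _ _ _ (Ne.symm hj), mul_zero]
      · intro h
        exact absurd hcase h
    rw [e1, e2, zero_add]
    exact he1 x hxC
  · set x : Fin 2 → ℤ := ![if 0 ≤ x' 0 then x' 0 - a else x' 0 + a, x' 1] with hx
    rw [mem_Ico] at hcase
    have hxe : x' = s x := by
      ext i
      fin_cases i
      · simp only [s, hx, Matrix.cons_val_zero, Fin.zero_eta]
        split_ifs <;> omega
      · simp [s, hx]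
    have hxA : x ∈ A := by
      refine (finite_latBall T).mem_toFinset.2 ((mem_latBall_iff hT x).2 ?_)
      have hint : (x 0) ^ 2 + (a : ℤ) ^ 2 ≤ (x' 0) ^ 2 := by
        simp only [hx, Matrix.cons_val_zero]
        have ha0 : (0 : ℤ) ≤ a := Int.natCast_nonneg a
        split_ifs with h
        · have : (a : ℤ) ≤ x' 0 := by omega
          nlinarith
        · have : x' 0 ≤ -(a : ℤ) := by omega
          nlinarith
      have hreal : (x 0 : ℝ) ^ 2 + (a : ℝ) ^ 2 ≤ (x' 0 : ℝ) ^ 2 := by exact_mod_cast hint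
      have h1 : x 1 = x' 1 := by simp [hx]
      rw [h1]
      linarith
    have e1 : ⟪φ x', g1⟫_ℝ = ⟪φ x, ∑ y ∈ A, c y • φ y⟫_ℝ := by
      rw [hg1, inner_sum_smul, inner_sum_smul]
      refine sum_congr rfl (fun y _ => ?_)
      rw [hxe, hss]
    have e2 : ⟪φ x', ∑ j ∈ Ico (-(a : ℤ)) a, g2 j⟫_ℝ = 0 := by
      rw [inner_sum]
      refine sum_eq_zero (fun j hj => ?_)
      rw [hg2, inner_sum_smul]
      refine sum_eq_zero (fun y _ => ?_)
      rw [hxe, hst j hj, mul_zero]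
    rw [e1, e2, add_zero]
    exact hc1 x hxA

include hK hK0 hP1 in
/-- Lower bound for the capacity of a ball by testing against a square. -/
lemma cp_lower {T : ℝ} (hT : 0 ≤ T) (N : ℕ) (hN : 2 * (N : ℝ) ≤ T) :
    ((N : ℝ) ^ 2) ^ 2 ≤ N * ‖∑ j ∈ range N, φ ![0, (j : ℤ)]‖ ^ 2 * cp (latBall 2 T) := by
  obtain ⟨c, hc1, hc2⟩ := hP1 (finite_latBall T).toFinset
  rw [Set.Finite.coe_toFinset] at hc2
  set g := ∑ y ∈ (finite_latBall T).toFinset, c y • φ y
  set v : H := ∑ i ∈ range N, ∑ j ∈ range N, φ ![(i : ℤ), (j : ℤ)] with hv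
  have h1 : (N : ℝ) ^ 2 ≤ ⟪v, g⟫_ℝ := by
    rw [hv, sum_inner]
    have : ∀ i ∈ range N, (N : ℝ) ≤ ⟪∑ j ∈ range N, φ ![(i : ℤ), (j : ℤ)], g⟫_ℝ := by
      intro i hi
      rw [sum_inner]
      have : ∀ j ∈ range N, (1 : ℝ) ≤ ⟪φ ![(i : ℤ), (j : ℤ)], g⟫_ℝ := by
        intro j hj
        refine hc1 _ ((finite_latBall T).mem_toFinset.2 ((mem_latBall_iff hT _).2 ?_))
        have hi' : (i : ℝ) ≤ N := by exact_mod_cast (mem_range.1 hi).le
        have hj' : (j : ℝ) ≤ N := by exact_mod_cast (mem_range.1 hj).le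
        have hi0 : (0 : ℝ) ≤ i := Nat.cast_nonneg i
        have hj0 : (0 : ℝ) ≤ j := Nat.cast_nonneg j
        simp only [Matrix.cons_val_zero, Matrix.cons_val_one, Int.cast_natCast]
        nlinarith
      simpa using sum_le_sum this
    have := sum_le_sum this
    rw [sum_const, card_range, nsmul_eq_mul] at this
    nlinarith
  have h2 : ‖v‖ ^ 2 = N * ‖∑ j ∈ range N, φ ![0, (j : ℤ)]‖ ^ 2 := by
    rw [hv, norm_sq_sum_orth]
    · have : ∀ i ∈ range N, ‖∑ j ∈ range N, φ ![(i : ℤ), (j : ℤ)]‖ ^ 2 =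
          ‖∑ j ∈ range N, φ ![0, (j : ℤ)]‖ ^ 2 := by
        intro i _
        rw [← real_inner_self_eq_norm_sq, ← real_inner_self_eq_norm_sq, sum_inner, sum_inner]
        refine sum_congr rfl (fun j _ => ?_)
        rw [inner_sum, inner_sum]
        refine sum_congr rfl (fun k _ => ?_)
        rw [hK, hK]
        congr 1
        ext l
        fin_cases l <;> simp
      rw [sum_congr rfl this, sum_const, card_range, nsmul_eq_mul]
    · intro i _ j _ hij
      rw [sum_inner]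
      refine sum_eq_zero (fun k _ => ?_)
      rw [inner_sum]
      refine sum_eq_zero (fun l _ => ?_)
      rw [hK, hK0]
      simpa [sub_eq_zero] using hij
  have h3 : ⟪v, g⟫_ℝ ≤ ‖v‖ * ‖g‖ := real_inner_le_norm v g
  rw [← h2, hc2, ← mul_pow]
  exact pow_le_pow_left₀ (by positivity) (h1.trans h3) 2

include hK hK0 hP1 hP2 in
/-- Condition (C). -/
lemma cp_ratio_tendsto {A B : ℝ} (hA : 0 < A) (hB : 0 < B)
    (hU : ∀ L : ℕ, 1 ≤ L → cp (col L) ≤ A * √L)
    (hL : ∀ N : ℕ, 1 ≤ N → ‖∑ j ∈ range N, φ ![0, (j : ℤ)]‖ ^ 2 ≤ B * N * √N)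
    {ε : ℝ} (hε : 0 < ε) :
    Tendsto (fun T : ℝ => cp (latBall 2 (T + T ^ (1 - ε))) / cp (latBall 2 T)) atTop (𝓝 1) := by
  have hu : Tendsto (fun T : ℝ => T ^ (-ε)) atTop (𝓝 0) := tendsto_rpow_neg_atTop hε
  have hlim : Tendsto (fun T : ℝ => 1 + 32 * A * B *
      (√(2 * T ^ (-ε) + (T ^ (-ε)) ^ 2) + T⁻¹)) atTop (𝓝 1) := by
    have h1 : Tendsto (fun T : ℝ => 2 * T ^ (-ε) + (T ^ (-ε)) ^ 2) atTop (𝓝 0) := by
      simpa using (hu.const_mul 2).add (hu.pow 2)
    have h2 := (h1.sqrt.add tendsto_inv_atTop_zero).const_mul (32 * A * B)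
    simpa using h2.const_add 1
  refine tendsto_of_tendsto_of_tendsto_of_le_of_le' tendsto_const_nhds hlim ?_ ?_
  all_goals
    filter_upwards [eventually_ge_atTop (4 : ℝ)] with T hT
    have hT0 : 0 < T := by linarith
    set u : ℝ := T ^ (-ε) with hudef
    have hu0 : 0 < u := Real.rpow_pos_of_pos hT0 _
    have hu1 : u ≤ 1 := Real.rpow_le_one_of_one_le_of_nonpos (by linarith) (by linarith)
    have hTu : T ^ (1 - ε) = T * u := by
      rw [sub_eq_add_neg, Real.rpow_add hT0, Real.rpow_one]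
    set N : ℕ := ⌊T / 2⌋₊ with hN
    have hN1 : (N : ℝ) ≤ T / 2 := Nat.floor_le (by linarith)
    have hN2 : T / 4 ≤ N := by
      have := Nat.lt_floor_add_one (T / 2)
      linarith
    have hNpos : (1 : ℝ) ≤ N := by linarith
    have hlow := cp_lower φ K cp hK hK0 hP1 hT0.le N (by linarith)
    have hcp0 : 0 ≤ cp (latBall 2 T) := by
      obtain ⟨c, _, hc2⟩ := hP1 (finite_latBall T).toFinset
      rw [Set.Finite.coe_toFinset] at hc2
      rw [hc2]
      positivity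
    have hL' := hL N (by exact_mod_cast hNpos)
    have hsN : √(N : ℝ) * √(N : ℝ) = N := Real.mul_self_sqrt (by linarith)
    have hsN0 : 0 < √(N : ℝ) := Real.sqrt_pos.2 (by linarith)
    have hlow2 : (N : ℝ) * √N ≤ B * cp (latBall 2 T) := by
      have h1 : ((N : ℝ) ^ 2) ^ 2 ≤ N * (B * N * √N) * cp (latBall 2 T) :=
        hlow.trans (mul_le_mul_of_nonneg_right
          (mul_le_mul_of_nonneg_left hL' (by linarith)) hcp0)
      have h2 : ((N : ℝ) ^ 2 * √N) * ((N : ℝ) * √N) ≤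
          ((N : ℝ) ^ 2 * √N) * (B * cp (latBall 2 T)) := by
        calc ((N : ℝ) ^ 2 * √N) * ((N : ℝ) * √N) = (N : ℝ) ^ 3 * (√N * √N) := by ring
          _ = ((N : ℝ) ^ 2) ^ 2 := by rw [hsN]; ring
          _ ≤ _ := h1
          _ = _ := by ring
      exact le_of_mul_le_mul_left h2 (by positivity)
    have hcppos : 0 < cp (latBall 2 T) := by
      have : 0 < B * cp (latBall 2 T) := lt_of_lt_of_le (by positivity) hlow2
      exact (mul_pos_iff_of_pos_left hB).1 this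
    rw [hTu]
  · rw [le_div_iff₀ hcppos, one_mul]
    exact cp_mono φ cp hP1 hP2 (finite_latBall _) (latBall_mono (by nlinarith))
  · rw [div_le_iff₀ hcppos]
    set w : ℝ := √(2 * u + u ^ 2) with hw
    have hw0 : 0 ≤ w := Real.sqrt_nonneg _
    have hw2 : w ^ 2 = 2 * u + u ^ 2 := Real.sq_sqrt (by positivity)
    set a : ℕ := ⌈T * w⌉₊ with ha
    have ha1 : T * w ≤ a := Nat.le_ceil _
    have ha2 : (a : ℝ) ≤ T * w + 1 := (Nat.ceil_lt_add_one (by positivity)).le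
    set L : ℕ := ⌈T + T * u⌉₊ with hLdef
    have hL1 : T + T * u ≤ L := Nat.le_ceil _
    have hL2 : (L : ℝ) ≤ 4 * T := by
      have := (Nat.ceil_lt_add_one (a := T + T * u) (by positivity)).le
      nlinarith
    have hL3 : (1 : ℝ) ≤ L := by nlinarith
    have hshift := cp_shift φ K cp hK hK0 hP1 hP2 hT0.le (T' := T + T * u) (by positivity) a L
      (by
        have h1 : (T * w) ^ 2 ≤ (a : ℝ) ^ 2 := pow_le_pow_left₀ (by positivity) ha1 2
        have h2 : (T + T * u) ^ 2 = T ^ 2 + (T * w) ^ 2 := by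
          rw [mul_pow, hw2]
          ring
        linarith) hL1
    have hU' := hU L (by exact_mod_cast hL3)
    have hsL : √(L : ℝ) ≤ 4 * √(N : ℝ) := by
      rw [Real.sqrt_le_left (by positivity)]
      nlinarith
    have h1 : 2 * a * cp (col L) ≤ 2 * (T * w + 1) * (A * (4 * √(N : ℝ))) := by
      have h2 : cp (col L) ≤ A * (4 * √(N : ℝ)) :=
        hU'.trans (mul_le_mul_of_nonneg_left hsL hA.le)
      calc 2 * a * cp (col L) ≤ 2 * a * (A * (4 * √(N : ℝ))) :=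
            mul_le_mul_of_nonneg_left h2 (by positivity)
        _ ≤ _ := mul_le_mul_of_nonneg_right (by linarith) (by positivity)
    have h3 : 2 * (T * w + 1) * (A * (4 * √(N : ℝ))) ≤
        32 * A * B * (w + T⁻¹) * cp (latBall 2 T) := by
      have h4 : T * w + 1 = (w + T⁻¹) * T := by field_simp
      have h5 : T * √(N : ℝ) ≤ 4 * (B * cp (latBall 2 T)) := by
        have : T * √(N : ℝ) ≤ 4 * (N * √(N : ℝ)) := by nlinarith
        linarith
      have h6 : 0 ≤ w + T⁻¹ := by positivity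
      calc 2 * (T * w + 1) * (A * (4 * √(N : ℝ))) = 8 * A * (w + T⁻¹) * (T * √(N : ℝ)) := by
            rw [h4]; ring
        _ ≤ 8 * A * (w + T⁻¹) * (4 * (B * cp (latBall 2 T))) :=
            mul_le_mul_of_nonneg_left h5 (by positivity)
        _ = _ := by ring
    calc cp (latBall 2 (T + T * u)) ≤ cp (latBall 2 T) + 2 * a * cp (col L) := hshift
      _ ≤ cp (latBall 2 T) + 32 * A * B * (w + T⁻¹) * cp (latBall 2 T) := by linarith
      _ = _ := by ring

end Cap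

end Pool.Agent.Lib.MP_ecc084_pr
end

-- part Pool.Agent.Lib.MP_ecc084_pr.Spectral
section

/-!
The characters as vectors of `L²(μ)`, and the capacity as a finite dimensional problem.
-/

open Finset MeasureTheory Metric
open scoped InnerProductSpace

namespace Pool.Agent.Lib.MP_ecc084_pr

variable {d : ℕ} (μ : Measure (EuclideanSpace ℝ (Fin d)))

/-- The phase `⟪l, x⟫`. -/
noncomputable def ph (x : Fin d → ℤ) (l : EuclideanSpace ℝ (Fin d)) : ℝ := inner ℝ l (emb x)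

lemma continuous_ph (x : Fin d → ℤ) : Continuous (ph x) := by
  unfold ph
  fun_prop

lemma emb_sub (x y : Fin d → ℤ) : emb (x - y) = emb x - emb y := by
  ext i
  simp [emb]

lemma ph_sub (x y : Fin d → ℤ) (l : EuclideanSpace ℝ (Fin d)) : ph (x - y) l = ph x l - ph y l := by
  simp only [ph, emb_sub, inner_sub_right]

lemma ph_neg (x : Fin d → ℤ) (l : EuclideanSpace ℝ (Fin d)) : ph x (-l) = - ph x l := by
  simp only [ph, inner_neg_left]

/-- The covariance kernel. -/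
noncomputable def Kc (z : Fin d → ℤ) : ℝ := ∫ l, Real.cos (ph z l) ∂μ

variable [IsFiniteMeasure μ]

lemma integrable_of_bdd {E : Type*} [NormedAddCommGroup E] [SecondCountableTopology E]
    {F : EuclideanSpace ℝ (Fin d) → E} (hF : Continuous F) (C : ℝ) (hC : ∀ l, ‖F l‖ ≤ C) :
    Integrable F μ :=
  Integrable.of_bound hF.aestronglyMeasurable C (Filter.Eventually.of_forall hC)

lemma integrable_cos_ph (z : Fin d → ℤ) : Integrable (fun l => Real.cos (ph z l)) μ :=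
  integrable_of_bdd μ (Real.continuous_cos.comp (continuous_ph z)) 1
    (fun l => by simpa using Real.abs_cos_le_one _)

lemma integrable_sin_ph (z : Fin d → ℤ) : Integrable (fun l => Real.sin (ph z l)) μ :=
  integrable_of_bdd μ (Real.continuous_sin.comp (continuous_ph z)) 1
    (fun l => by simpa using Real.abs_sin_le_one _)

lemma memLp_chi (x : Fin d → ℤ) :
    MemLp (fun l => Complex.exp ((ph x l : ℂ) * Complex.I)) 2 μ := by
  have hc : Continuous (fun l => Complex.exp ((ph x l : ℂ) * Complex.I)) := by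
    have := continuous_ph x
    fun_prop
  exact MemLp.of_bound hc.aestronglyMeasurable 1
    (Filter.Eventually.of_forall (fun l => (Complex.norm_exp_ofReal_mul_I _).le))

/-- The character of `x` as an element of `L²(μ)`. -/
noncomputable def chi (x : Fin d → ℤ) : Lp ℂ 2 μ := (memLp_chi μ x).toLp _

lemma conj_exp (t : ℝ) :
    (starRingEnd ℂ) (Complex.exp ((t : ℂ) * Complex.I)) = Complex.exp (-(t : ℂ) * Complex.I) := by
  rw [← Complex.exp_conj]
  simp

lemma fourierOf_eq_inner (g : Lp ℂ 2 μ) (x : Fin d → ℤ) : fourierOf μ g x = ⟪chi μ x, g⟫_ℂ := by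
  rw [L2.inner_def, fourierOf]
  refine integral_congr_ae ?_
  filter_upwards [(memLp_chi μ x).coeFn_toLp] with l hl
  rw [RCLike.inner_apply, chi, hl, conj_exp]
  rfl

omit [IsFiniteMeasure μ] in
lemma real_inner_eq_re (f g : Lp ℂ 2 μ) : ⟪f, g⟫_ℝ = (⟪f, g⟫_ℂ).re := by
  rw [L2.inner_def, L2.inner_def]
  have := integral_re (𝕜 := ℂ) (L2.integrable_inner (𝕜 := ℂ) f g)
  simp only [RCLike.re_to_complex] at this
  rw [← this]
  rfl

lemma fourierOf_one_eq (hsym : μ.map (fun l => -l) = μ) (z : Fin d → ℤ) :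
    fourierOf μ (fun _ => 1) z = (Kc μ z : ℂ) := by
  have hsin : ∫ l, Real.sin (ph z l) ∂μ = 0 := by
    have h1 : ∫ l, Real.sin (ph z l) ∂μ = ∫ l, Real.sin (ph z (-l)) ∂μ := by
      conv_lhs => rw [← hsym]
      rw [integral_map (by fun_prop)]
      exact (Real.continuous_sin.comp (continuous_ph z)).aestronglyMeasurable
    simp only [ph_neg, Real.sin_neg, integral_neg] at h1
    linarith
  have h2 : ∀ l, (1 : ℂ) * Complex.exp (-((inner ℝ l (emb z) : ℝ) : ℂ) * Complex.I) =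
      ((Real.cos (ph z l) : ℝ) : ℂ) - ((Real.sin (ph z l) : ℝ) : ℂ) * Complex.I := by
    intro l
    rw [one_mul, Complex.exp_mul_I, Complex.cos_neg, Complex.sin_neg]
    simp [ph, sub_eq_add_neg]
  rw [fourierOf]
  simp only [h2]
  rw [integral_sub (integrable_cos_ph μ z).ofReal ((integrable_sin_ph μ z).ofReal.mul_const _),
    integral_mul_const, integral_complex_ofReal, integral_complex_ofReal, hsin]
  simp [Kc]

lemma inner_chi_chi (x y : Fin d → ℤ) :
    ⟪chi μ x, chi μ y⟫_ℂ = fourierOf μ (fun _ => 1) (x - y) := by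
  rw [← fourierOf_eq_inner, fourierOf, fourierOf]
  refine integral_congr_ae ?_
  filter_upwards [(memLp_chi μ y).coeFn_toLp] with l hl
  rw [chi, hl, ← Complex.exp_add, one_mul]
  congr 1
  have := ph_sub x y l
  simp only [ph] at this ⊢
  rw [this]
  push_cast
  ring

lemma real_inner_chi_chi (hsym : μ.map (fun l => -l) = μ) (x y : Fin d → ℤ) :
    ⟪chi μ x, chi μ y⟫_ℝ = Kc μ (x - y) := by
  rw [real_inner_eq_re, inner_chi_chi, fourierOf_one_eq μ hsym, Complex.ofReal_re]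

/-- Test functions: normalised indicators of sets on which the phase is small. -/
lemma test_indicator {S : Set (EuclideanSpace ℝ (Fin d))} (hS : MeasurableSet S)
    (hpos : 0 < μ.real S) :
    ∃ g : Lp ℂ 2 μ, ‖g‖ ^ 2 = 4 / μ.real S ∧
      ∀ x, (∀ l ∈ S, |ph x l| ≤ 1) → 1 ≤ ⟪chi μ x, g⟫_ℝ := by
  refine ⟨indicatorConstLp 2 hS (measure_ne_top μ S) ((2 / μ.real S : ℝ) : ℂ), ?_, ?_⟩
  · rw [norm_indicatorConstLp two_ne_zero ENNReal.ofNat_ne_top, Complex.norm_real,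
      Real.norm_eq_abs, mul_pow, sq_abs, ← Real.rpow_natCast (μ.real S ^ _),
      ← Real.rpow_mul hpos.le]
    norm_num
    field_simp
    norm_num
  · intro x hx
    rw [real_inner_comm, L2.inner_indicatorConstLp_eq_setIntegral_inner]
    have h1 : ∫ l in S, ⟪((2 / μ.real S : ℝ) : ℂ), chi μ x l⟫_ℝ ∂μ =
        ∫ l in S, 2 / μ.real S * Real.cos (ph x l) ∂μ := by
      refine integral_congr_ae (ae_restrict_of_ae ?_)
      filter_upwards [(memLp_chi μ x).coeFn_toLp] with l hl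
      rw [chi, hl, Complex.inner, Complex.conj_ofReal, Complex.mul_re, Complex.ofReal_re,
        Complex.ofReal_im, Complex.exp_ofReal_mul_I_re]
      ring
    rw [h1]
    have h2 : ∫ _ in S, 1 / μ.real S ∂μ ≤ ∫ l in S, 2 / μ.real S * Real.cos (ph x l) ∂μ := by
      refine setIntegral_mono_on (integrable_const _)
        ((integrable_cos_ph μ x).const_mul _).integrableOn hS (fun l hl => ?_)
      have h3 := Real.one_sub_sq_div_two_le_cos (x := ph x l)
      have h4 : ph x l ^ 2 ≤ 1 := by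
        have := hx l hl
        rw [← sq_abs]
        nlinarith [abs_nonneg (ph x l)]
      have h5 : 1 / 2 ≤ Real.cos (ph x l) := by linarith
      calc 1 / μ.real S = 2 / μ.real S * (1 / 2) := by ring
        _ ≤ _ := mul_le_mul_of_nonneg_left h5 (by positivity)
    rw [setIntegral_const, smul_eq_mul, mul_one_div_cancel hpos.ne'] at h2
    exact h2

lemma exists_feasible (hpos : ∀ δ : ℝ, 0 < δ → 0 < μ.real (closedBall 0 δ))
    (D : Finset (Fin d → ℤ)) : ∃ g : Lp ℂ 2 μ, ∀ x ∈ D, 1 ≤ ⟪chi μ x, g⟫_ℝ := by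
  set R : ℝ := 1 + ∑ x ∈ D, ‖emb x‖ with hR
  have hR0 : 0 < R := by positivity
  obtain ⟨g, -, hg⟩ := test_indicator μ (measurableSet_closedBall (x := 0) (ε := R⁻¹))
    (hpos _ (by positivity))
  refine ⟨g, fun x hx => hg x (fun l hl => ?_)⟩
  have h1 : ‖emb x‖ ≤ R := by
    have := single_le_sum (f := fun x => ‖emb x‖) (fun _ _ => norm_nonneg _) hx
    linarith
  have h2 : ‖l‖ ≤ R⁻¹ := by simpa using hl
  calc |ph x l| ≤ ‖l‖ * ‖emb x‖ := abs_real_inner_le_norm _ _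
    _ ≤ R⁻¹ * R := mul_le_mul h2 h1 (norm_nonneg _) (by positivity)
    _ = 1 := inv_mul_cancel₀ hR0.ne'

lemma feasible_sum (hsym : μ.map (fun l => -l) = μ) (D : Finset (Fin d → ℤ))
    (c : (Fin d → ℤ) → ℝ) (x : Fin d → ℤ) :
    fourierOf μ (∑ y ∈ D, c y • chi μ y : Lp ℂ 2 μ) x =
      ((⟪chi μ x, ∑ y ∈ D, c y • chi μ y⟫_ℝ : ℝ) : ℂ) := by
  rw [fourierOf_eq_inner, inner_sum_smul, inner_sum]
  push_cast
  refine sum_congr rfl (fun y _ => ?_)
  rw [RCLike.real_smul_eq_coe_smul (K := ℂ), inner_smul_right, inner_chi_chi,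
    fourierOf_one_eq μ hsym, real_inner_chi_chi μ hsym]
  rfl

/-- The capacity of a finite set is attained in the real span of the characters. -/
lemma cap_spec (hsym : μ.map (fun l => -l) = μ)
    (hpos : ∀ δ : ℝ, 0 < δ → 0 < μ.real (closedBall 0 δ)) (D : Finset (Fin d → ℤ)) :
    ∃ c : (Fin d → ℤ) → ℝ, (∀ x ∈ D, 1 ≤ ⟪chi μ x, ∑ y ∈ D, c y • chi μ y⟫_ℝ) ∧
      cap μ D = ‖∑ y ∈ D, c y • chi μ y‖ ^ 2 ∧
      (∀ g : Lp ℂ 2 μ, (∀ x ∈ D, 1 ≤ ⟪chi μ x, g⟫_ℝ) → cap μ D ≤ ‖g‖ ^ 2) ∧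
      ∃ h, IsEqPot μ D h := by
  obtain ⟨g0, hg0⟩ := exists_feasible μ hpos D
  obtain ⟨c, hc1, hc2⟩ := exists_min_span (chi μ) D g0 hg0
  have hfeas : Feasible μ D (∑ y ∈ D, c y • chi μ y)
      (fun x => ⟪chi μ x, ∑ y ∈ D, c y • chi μ y⟫_ℝ) :=
    ⟨feasible_sum μ hsym D c, fun x hx => hc1 x hx⟩
  have hcap : cap μ D = ‖∑ y ∈ D, c y • chi μ y‖ ^ 2 := by
    refine IsLeast.csInf_eq ⟨⟨_, _, hfeas, rfl⟩, ?_⟩
    rintro _ ⟨g, h, hgh, rfl⟩
    refine pow_le_pow_left₀ (norm_nonneg _) (hc2 g (fun x hx => ?_)) 2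
    rw [real_inner_eq_re, ← fourierOf_eq_inner, hgh.1 x, Complex.ofReal_re]
    exact hgh.2 x hx
  refine ⟨c, hc1, hcap, fun g hg => ?_, _, _, hfeas, hcap.symm⟩
  rw [hcap]
  exact pow_le_pow_left₀ (norm_nonneg _) (hc2 g hg) 2

/-- The squared modulus of a trigonometric polynomial. -/
noncomputable def Gq (I : Finset (Fin d → ℤ)) (c : (Fin d → ℤ) → ℝ)
    (l : EuclideanSpace ℝ (Fin d)) : ℝ :=
  ∑ x ∈ I, ∑ y ∈ I, c x * c y * Real.cos (ph (x - y) l)

omit [IsFiniteMeasure μ] in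
lemma Gq_nonneg (I : Finset (Fin d → ℤ)) (c : (Fin d → ℤ) → ℝ) (l : EuclideanSpace ℝ (Fin d)) :
    0 ≤ Gq I c l := by
  have : Gq I c l = (∑ x ∈ I, c x * Real.cos (ph x l)) ^ 2 +
      (∑ x ∈ I, c x * Real.sin (ph x l)) ^ 2 := by
    rw [sq, sq, sum_mul_sum, sum_mul_sum, ← sum_add_distrib, Gq]
    refine sum_congr rfl (fun x _ => ?_)
    rw [← sum_add_distrib]
    refine sum_congr rfl (fun y _ => ?_)
    rw [ph_sub, Real.cos_sub]
    ring
  rw [this]
  positivity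

lemma integrable_Gq (I : Finset (Fin d → ℤ)) (c : (Fin d → ℤ) → ℝ) : Integrable (Gq I c) μ :=
  integrable_finsetSum _ (fun _ _ => integrable_finsetSum _
    (fun _ _ => (integrable_cos_ph μ _).const_mul _))

lemma integral_Gq (I : Finset (Fin d → ℤ)) (c : (Fin d → ℤ) → ℝ) :
    ∫ l, Gq I c l ∂μ = ∑ x ∈ I, ∑ y ∈ I, c x * c y * Kc μ (x - y) := by
  unfold Gq
  rw [integral_finsetSum _ (fun _ _ => integrable_finsetSum _
    (fun _ _ => (integrable_cos_ph μ _).const_mul _))]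
  refine sum_congr rfl (fun x _ => ?_)
  rw [integral_finsetSum _ (fun _ _ => (integrable_cos_ph μ _).const_mul _)]
  simp only [integral_const_mul, Kc]

end Pool.Agent.Lib.MP_ecc084_pr
end

-- part Pool.Agent.Lib.MP_ecc084_pr.TwoDim
section

/-!
The spectral measure with density `|l 1|^(-1/2)` on the square `[-π, π]^2`.
-/

open MeasureTheory Set Real Metric Filter Topology
open scoped InnerProductSpace

namespace Pool.Agent.Lib.MP_ecc084_pr

/-- Coordinates on the Euclidean plane. -/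
noncomputable def Phi (p : ℝ × ℝ) : EuclideanSpace ℝ (Fin 2) := WithLp.toLp 2 ![p.1, p.2]

lemma Phi_zero (p : ℝ × ℝ) : Phi p 0 = p.1 := rfl

lemma Phi_one (p : ℝ × ℝ) : Phi p 1 = p.2 := rfl

lemma measurePreserving_Phi : MeasurePreserving Phi volume volume :=
  (PiLp.volume_preserving_toLp (Fin 2)).comp (volume_preserving_finTwoArrow ℝ).symm

lemma measurable_Phi : Measurable Phi := measurePreserving_Phi.measurable

/-- The product of `nu1` with a measure `ν`, on the Euclidean plane. -/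
noncomputable def pm (ν : Measure ℝ) : Measure (EuclideanSpace ℝ (Fin 2)) := (nu1.prod ν).map Phi

instance (ν : Measure ℝ) [IsFiniteMeasure ν] : IsFiniteMeasure (pm ν) := by
  unfold pm
  infer_instance

lemma pm_mono {ν ν' : Measure ℝ} [SFinite ν] [SFinite ν'] (h : ν ≤ ν') : pm ν ≤ pm ν' :=
  Measure.map_mono (Measure.prod_mono le_rfl h) measurable_Phi

lemma pm_add (ν ν' : Measure ℝ) [SFinite ν] [SFinite ν'] : pm (ν + ν') = pm ν + pm ν' := by
  unfold pm
  rw [Measure.prod_add, Measure.map_add _ _ measurable_Phi]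

lemma pm_smul (c : ENNReal) (ν : Measure ℝ) [SFinite ν] : pm (c • ν) = c • pm ν := by
  unfold pm
  rw [Measure.prod_smul_right, Measure.map_smul]

lemma pm_univ (ν : Measure ℝ) [SFinite ν] : pm ν univ = ENNReal.ofReal (2 * π) * ν univ := by
  unfold pm
  rw [Measure.map_apply measurable_Phi MeasurableSet.univ, preimage_univ, ← univ_prod_univ,
    Measure.prod_prod, nu1_univ]

lemma ph_Phi (z : Fin 2 → ℤ) (p : ℝ × ℝ) : ph z (Phi p) = p.1 * z 0 + p.2 * z 1 := by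
  simp [ph, Phi, emb, PiLp.inner_apply, Fin.sum_univ_two, mul_comm]

lemma ph_eq (z : Fin 2 → ℤ) (l : EuclideanSpace ℝ (Fin 2)) : ph z l = l 0 * z 0 + l 1 * z 1 := by
  simp [ph, emb, PiLp.inner_apply, Fin.sum_univ_two, mul_comm]

lemma Kc_pm (ν : Measure ℝ) [IsFiniteMeasure ν] (z : Fin 2 → ℤ) :
    Kc (pm ν) z = (if z 0 = 0 then 2 * π else 0) * ∫ t, Real.cos (t * z 1) ∂ν := by
  unfold Kc pm
  have hc : Continuous (fun l => Real.cos (ph z l)) := Real.continuous_cos.comp (continuous_ph z)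
  rw [integral_map measurable_Phi.aemeasurable hc.aestronglyMeasurable]
  simp only [ph_Phi, Real.cos_add]
  have hb : ∀ (F : ℝ × ℝ → ℝ), Continuous F → (∀ p, ‖F p‖ ≤ 1) → Integrable F (nu1.prod ν) :=
    fun F hF h => Integrable.of_bound hF.aestronglyMeasurable 1 (Eventually.of_forall h)
  rw [integral_sub, integral_prod_mul (fun s => Real.cos (s * z 0)) (fun t => Real.cos (t * z 1)),
    integral_prod_mul (fun s => Real.sin (s * z 0)) (fun t => Real.sin (t * z 1)),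
    integral_sin_nu1, integral_cos_nu1, zero_mul, sub_zero]
  · refine hb _ (by fun_prop) (fun p => ?_)
    rw [norm_mul]
    exact mul_le_one₀ (Real.abs_cos_le_one _) (norm_nonneg _) (Real.abs_cos_le_one _)
  · refine hb _ (by fun_prop) (fun p => ?_)
    rw [norm_mul]
    exact mul_le_one₀ (Real.abs_sin_le_one _) (norm_nonneg _) (Real.abs_sin_le_one _)

lemma Kc_col (z : Fin 2 → ℤ) (h : z 0 ≠ 0) : Kc (pm nu2) z = 0 := by
  rw [Kc_pm, if_neg h, zero_mul]

lemma Kc_leb (z : Fin 2 → ℤ) : Kc (pm nu1) z = if z = 0 then 4 * π ^ 2 else 0 := by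
  rw [Kc_pm, integral_cos_nu1]
  by_cases h : z = 0
  · simp [h]
    ring
  · rw [if_neg h]
    by_cases h0 : z 0 = 0
    · have h1 : z 1 ≠ 0 := by
        intro h1
        apply h
        ext i
        fin_cases i
        · exact h0
        · exact h1
      rw [if_neg h1, mul_zero]
    · rw [if_neg h0, zero_mul]

lemma integral_Gq_leb (I : Finset (Fin 2 → ℤ)) (c : (Fin 2 → ℤ) → ℝ) :
    ∫ l, Gq I c l ∂(pm nu1) = 4 * π ^ 2 * ∑ x ∈ I, c x ^ 2 := by
  rw [integral_Gq, Finset.mul_sum]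
  refine Finset.sum_congr rfl (fun x hx => ?_)
  simp only [Kc_leb, sub_eq_zero, mul_ite, mul_zero, Finset.sum_ite_eq, if_pos hx]
  ring

lemma mu_symm : (pm nu2).map (fun l => -l) = pm nu2 := by
  unfold pm
  rw [Measure.map_map measurable_neg measurable_Phi]
  conv_rhs => rw [← nu1_symm, ← nu2_symm, Measure.map_prod_map _ _ measurable_neg measurable_neg,
    Measure.map_map measurable_Phi (measurable_neg.prodMap measurable_neg)]
  congr 1
  ext p i
  fin_cases i <;> simp [Phi]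

lemma mu_ac : pm nu2 ≪ volume := by
  unfold pm
  rw [← measurePreserving_Phi.map_eq]
  exact (nu1_ac.prod nu2_ac).map measurable_Phi

lemma mu_supp : pm nu2 {l | ∃ i, π < |l i|} = 0 := by
  have hm : MeasurableSet {l : EuclideanSpace ℝ (Fin 2) | ∃ i, π < |l i|} := by
    have : {l : EuclideanSpace ℝ (Fin 2) | ∃ i, π < |l i|} = ⋃ i, {l | π < |l i|} := by
      ext l
      simp
    rw [this]
    exact MeasurableSet.iUnion (fun i => measurableSet_lt measurable_const (by fun_prop))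
  unfold pm
  rw [Measure.map_apply measurable_Phi hm]
  refine measure_mono_null (t := ((Icc (-π) π)ᶜ ×ˢ univ) ∪ (univ ×ˢ (Icc (-π) π)ᶜ)) ?_ ?_
  · rintro p ⟨i, hi⟩
    fin_cases i
    · left
      refine ⟨fun h => ?_, mem_univ _⟩
      exact absurd (abs_le.2 h) (not_le.2 hi)
    · right
      refine ⟨mem_univ _, fun h => ?_⟩
      exact absurd (abs_le.2 h) (not_le.2 hi)
  · refine measure_union_null ?_ ?_
    · rw [Measure.prod_prod, nu1_compl, zero_mul]
    · rw [Measure.prod_prod, nu2_compl, mul_zero]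

lemma mu_ball_le {δ : ℝ} (h : 0 < δ) (u : EuclideanSpace ℝ (Fin 2)) :
    (pm nu2).real (closedBall u δ) ≤ 12 * (δ * √δ) := by
  have h1 : pm nu2 (closedBall u δ) ≤ ENNReal.ofReal (12 * (δ * √δ)) := by
    unfold pm
    rw [Measure.map_apply measurable_Phi measurableSet_closedBall]
    have hsub : Phi ⁻¹' closedBall u δ ⊆
        Icc (u 0 - δ) (u 0 + δ) ×ˢ Icc (u 1 - δ) (u 1 + δ) := by
      intro p hp
      have hp' : ‖Phi p - u‖ ≤ δ := by simpa [dist_eq_norm] using hp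
      have h0 := (PiLp.norm_apply_le (Phi p - u) 0).trans hp'
      have h1 := (PiLp.norm_apply_le (Phi p - u) 1).trans hp'
      rw [PiLp.sub_apply, Real.norm_eq_abs, abs_le] at h0 h1
      rw [Phi_zero] at h0
      rw [Phi_one] at h1
      exact ⟨⟨by linarith [h0.1], by linarith [h0.2]⟩, ⟨by linarith [h1.1], by linarith [h1.2]⟩⟩
    refine (measure_mono hsub).trans ?_
    rw [Measure.prod_prod]
    have h3 : nu1 (Icc (u 0 - δ) (u 0 + δ)) ≤ ENNReal.ofReal (2 * δ) := by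
      refine (nu1_le _).trans (le_of_eq ?_)
      rw [Real.volume_Icc]
      congr 1
      ring
    refine (mul_le_mul' h3 (nu2_Icc_shift h _)).trans (le_of_eq ?_)
    rw [← ENNReal.ofReal_mul (by positivity)]
    congr 1
    ring
  exact ENNReal.toReal_le_of_le_ofReal (by positivity) h1

lemma mu_ball_ge {δ : ℝ} (h : 0 < δ) (h' : δ ≤ 1) :
    δ * √δ ≤ (pm nu2).real (closedBall 0 δ) := by
  have hπ : δ / 2 ≤ π := by linarith [pi_gt_three]
  have h1 : ENNReal.ofReal (δ * √δ) ≤ pm nu2 (closedBall 0 δ) := by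
    unfold pm
    rw [Measure.map_apply measurable_Phi measurableSet_closedBall]
    have hsub : Icc (-(δ / 2)) (δ / 2) ×ˢ Icc (-(δ / 2)) (δ / 2) ⊆ Phi ⁻¹' closedBall 0 δ := by
      rintro p ⟨h0, h1⟩
      simp only [mem_preimage, mem_closedBall, dist_zero_right, EuclideanSpace.norm_eq,
        Fin.sum_univ_two, Phi_zero, Phi_one, Real.norm_eq_abs, sq_abs]
      rw [Real.sqrt_le_left h.le]
      nlinarith [h0.1, h0.2, h1.1, h1.2]
    refine le_trans ?_ (measure_mono hsub)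
    rw [Measure.prod_prod, nu1_Icc hπ]
    refine le_trans ?_ (mul_le_mul_right (nu2_Icc_ge (by linarith) hπ) _)
    rw [← ENNReal.ofReal_mul (by positivity)]
    refine ENNReal.ofReal_le_ofReal ?_
    have h2 : √δ ≤ 2 * √(δ / 2) := by
      rw [Real.sqrt_le_left (by positivity), mul_pow, Real.sq_sqrt (by positivity)]
      linarith
    nlinarith
  exact (ENNReal.ofReal_le_iff_le_toReal (measure_ne_top _ _)).1 h1

lemma mu_ball_ge_one {δ : ℝ} (h' : 1 ≤ δ) : 1 ≤ (pm nu2).real (closedBall 0 δ) := by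
  have h1 := mu_ball_ge one_pos le_rfl
  rw [Real.sqrt_one, one_mul] at h1
  exact h1.trans (measureReal_mono (closedBall_subset_closedBall h'))

lemma mu_ball_pos (δ : ℝ) (h : 0 < δ) : 0 < (pm nu2).real (closedBall 0 δ) := by
  rcases le_total δ 1 with h' | h'
  · exact lt_of_lt_of_le (by positivity) (mu_ball_ge h h')
  · exact lt_of_lt_of_le one_pos (mu_ball_ge_one h')

lemma mu_univ_pos : 0 < (pm nu2).real univ :=
  lt_of_lt_of_le (mu_ball_pos 1 one_pos) (measureReal_mono (subset_univ _))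

lemma mu_ne_zero : pm nu2 ≠ 0 := by
  intro h
  have := mu_univ_pos
  simp [h] at this

lemma cond_O : ∃ c : ℝ, 0 < c ∧ ∀ (u : EuclideanSpace ℝ (Fin 2)) (δ : ℝ), 0 < δ →
    (pm nu2).real (closedBall u δ) ≤ c * (pm nu2).real (closedBall 0 δ) := by
  refine ⟨12 + (pm nu2).real univ, by linarith [mu_univ_pos], fun u δ h => ?_⟩
  have hp := mu_ball_pos δ h
  have hu := mu_univ_pos
  rcases le_total δ 1 with h' | h'
  · have h1 := mu_ball_le h u
    have h2 := mu_ball_ge h h'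
    nlinarith
  · have h1 : (pm nu2).real (closedBall u δ) ≤ (pm nu2).real univ :=
      measureReal_mono (subset_univ _)
    have h2 := mu_ball_ge_one h'
    nlinarith

lemma cond_D : ∃ c : ℝ, 0 < c ∧ ∀ δ : ℝ, 0 < δ →
    (pm nu2).real (closedBall 0 (2 * δ)) ≤ c * (pm nu2).real (closedBall 0 δ) := by
  refine ⟨48 + (pm nu2).real univ, by linarith [mu_univ_pos], fun δ h => ?_⟩
  have hp := mu_ball_pos δ h
  have hu := mu_univ_pos
  rcases le_total δ 1 with h' | h'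
  · have h1 := mu_ball_le (δ := 2 * δ) (by linarith) 0
    have h2 := mu_ball_ge h h'
    have h3 : √(2 * δ) ≤ 2 * √δ := by
      rw [Real.sqrt_le_left (by positivity), mul_pow, Real.sq_sqrt h.le]
      linarith
    have h4 : 2 * δ * √(2 * δ) ≤ 2 * δ * (2 * √δ) := mul_le_mul_of_nonneg_left h3 (by positivity)
    nlinarith
  · have h1 : (pm nu2).real (closedBall 0 (2 * δ)) ≤ (pm nu2).real univ :=
      measureReal_mono (subset_univ _)
    have h2 := mu_ball_ge_one h'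
    nlinarith

lemma cond_S : Tendsto (fun δ : ℝ => Real.log ((pm nu2).real (closedBall 0 δ)) / Real.log δ)
    (𝓝[>] 0) (𝓝 (3 / 2)) := by
  have hlow : Tendsto (fun δ : ℝ => 3 / 2 + Real.log 12 / Real.log δ) (𝓝[>] 0) (𝓝 (3 / 2)) := by
    have := (tendsto_const_nhds (x := Real.log 12)).div_atBot Real.tendsto_log_nhdsGT_zero
    simpa using this.const_add (3 / 2)
  refine tendsto_of_tendsto_of_tendsto_of_le_of_le' hlow tendsto_const_nhds ?_ ?_
  all_goals
    filter_upwards [Ioo_mem_nhdsGT (zero_lt_one' ℝ)] with δ hδ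
    have hlog : Real.log δ < 0 := Real.log_neg hδ.1 hδ.2
    have hs : 0 < √δ := Real.sqrt_pos.2 hδ.1
    have h0 := hδ.1
    have hl : Real.log (δ * √δ) = 3 / 2 * Real.log δ := by
      rw [Real.log_mul h0.ne' hs.ne', Real.log_sqrt h0.le]
      ring
  · rw [le_div_iff_of_neg hlog]
    have h1 := Real.log_le_log (mu_ball_pos δ h0) (mu_ball_le h0 0)
    rw [Real.log_mul (by norm_num) (by positivity), hl] at h1
    have h2 : (3 / 2 + Real.log 12 / Real.log δ) * Real.log δ =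
        Real.log 12 + 3 / 2 * Real.log δ := by
      field_simp [hlog.ne]
      ring
    linarith
  · rw [div_le_iff_of_neg hlog]
    have h1 := Real.log_le_log (by positivity) (mu_ball_ge h0 hδ.2.le)
    linarith

lemma norm_sq_sum_chi (I : Finset (Fin 2 → ℤ)) (c : (Fin 2 → ℤ) → ℝ) :
    ‖∑ x ∈ I, c x • chi (pm nu2) x‖ ^ 2 = ∫ l, Gq I c l ∂(pm nu2) := by
  rw [← real_inner_self_eq_norm_sq, inner_sum_sum, integral_Gq]
  simp only [real_inner_chi_chi _ mu_symm]

lemma nondeg (I : Finset (Fin 2 → ℤ)) (c : (Fin 2 → ℤ) → ℝ) (h : ∃ x ∈ I, c x ≠ 0) :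
    0 < ∑ x ∈ I, ∑ y ∈ I, c x * c y * Kc (pm nu2) (x - y) := by
  rw [← integral_Gq]
  have h1 : ENNReal.ofReal ((√π)⁻¹) • pm nu1 ≤ pm nu2 := by
    rw [← pm_smul]
    exact pm_mono le_nu2_pi
  have h2 := integral_mono_measure h1 (Eventually.of_forall (Gq_nonneg I c))
    (integrable_Gq (pm nu2) I c)
  refine lt_of_lt_of_le ?_ h2
  rw [integral_smul_measure, integral_Gq_leb, ENNReal.toReal_ofReal (by positivity), smul_eq_mul]
  obtain ⟨x, hx, hcx⟩ := h
  have h3 : 0 < ∑ x ∈ I, c x ^ 2 :=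
    Finset.sum_pos' (fun _ _ => sq_nonneg _) ⟨x, hx, by positivity⟩
  have := pi_pos
  positivity

lemma col_energy (N : ℕ) (hN : 1 ≤ N) :
    ‖∑ j ∈ Finset.range N, chi (pm nu2) ![0, (j : ℤ)]‖ ^ 2 ≤ (8 * π + 4 * π ^ 2) * N * √N := by
  have hN0 : (0 : ℝ) < N := by exact_mod_cast hN
  set I : Finset (Fin 2 → ℤ) := (Finset.range N).image (fun j : ℕ => ![0, (j : ℤ)]) with hI
  have hinj : Function.Injective (fun j : ℕ => (![0, (j : ℤ)] : Fin 2 → ℤ)) := by
    intro a b hab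
    have := congrFun hab 1
    simpa using this
  have hcard : I.card = N := by
    rw [hI, Finset.card_image_of_injective _ hinj, Finset.card_range]
  have h0 : ∑ j ∈ Finset.range N, chi (pm nu2) ![0, (j : ℤ)] =
      ∑ x ∈ I, (1 : ℝ) • chi (pm nu2) x := by
    rw [hI, Finset.sum_image (fun a _ b _ hab => hinj hab)]
    simp
  rw [h0, norm_sq_sum_chi]
  set δ : ℝ := (N : ℝ)⁻¹ with hδ
  have hδ0 : 0 < δ := by positivity
  have h1 : pm nu2 ≤ pm (nu2.restrict (Icc (-δ) δ)) + ENNReal.ofReal ((√δ)⁻¹) • pm nu1 := by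
    rw [← pm_smul, ← pm_add]
    exact pm_mono (nu2_le hδ0)
  have hi2 : Integrable (Gq I (fun _ => 1)) (ENNReal.ofReal ((√δ)⁻¹) • pm nu1) :=
    (integrable_Gq _ I _).smul_measure ENNReal.ofReal_ne_top
  have h2 := integral_mono_measure h1 (Eventually.of_forall (Gq_nonneg I (fun _ => 1)))
    ((integrable_Gq _ I _).add_measure hi2)
  rw [integral_add_measure (integrable_Gq _ I _) hi2, integral_smul_measure, integral_Gq_leb,
    ENNReal.toReal_ofReal (by positivity), smul_eq_mul] at h2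
  have hG : ∀ l, Gq I (fun _ => 1) l ≤ (N : ℝ) ^ 2 := by
    intro l
    unfold Gq
    calc ∑ x ∈ I, ∑ y ∈ I, (1 : ℝ) * 1 * Real.cos (ph (x - y) l)
        ≤ ∑ x ∈ I, ∑ y ∈ I, (1 : ℝ) :=
          Finset.sum_le_sum (fun x _ => Finset.sum_le_sum (fun y _ => by
            simpa using Real.cos_le_one _))
      _ = (N : ℝ) ^ 2 := by simp [hcard, sq]
  have h3 : ∫ l, Gq I (fun _ => 1) l ∂(pm (nu2.restrict (Icc (-δ) δ))) ≤
      (2 * π * (4 * √δ)) * (N : ℝ) ^ 2 := by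
    calc ∫ l, Gq I (fun _ => 1) l ∂(pm (nu2.restrict (Icc (-δ) δ)))
        ≤ ∫ _, (N : ℝ) ^ 2 ∂(pm (nu2.restrict (Icc (-δ) δ))) :=
          integral_mono (integrable_Gq _ I _) (integrable_const _) hG
      _ = (pm (nu2.restrict (Icc (-δ) δ))).real univ * (N : ℝ) ^ 2 := by
          rw [integral_const, smul_eq_mul]
      _ ≤ _ := by
          refine mul_le_mul_of_nonneg_right ?_ (by positivity)
          refine ENNReal.toReal_le_of_le_ofReal (by positivity) ?_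
          rw [pm_univ, Measure.restrict_apply MeasurableSet.univ, univ_inter,
            ENNReal.ofReal_mul (p := 2 * π) (q := 4 * √δ) (by positivity)]
          exact mul_le_mul_right (nu2_Icc_le hδ0) _
  have hs : √δ = (√N)⁻¹ := by rw [hδ, Real.sqrt_inv]
  have hsN : √(N : ℝ) * √(N : ℝ) = N := Real.mul_self_sqrt hN0.le
  have hsN0 : 0 < √(N : ℝ) := Real.sqrt_pos.2 hN0
  have h4 : (2 * π * (4 * √δ)) * (N : ℝ) ^ 2 = 8 * π * N * √N := by
    rw [hs]
    field_simp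
    nlinarith
  have h5 : (√δ)⁻¹ * (4 * π ^ 2 * ∑ x ∈ I, (1 : ℝ) ^ 2) = 4 * π ^ 2 * N * √N := by
    rw [hs, inv_inv]
    simp [hcard]
    ring
  rw [h5] at h2
  rw [h4] at h3
  linarith

lemma hP1 (D : Finset (Fin 2 → ℤ)) : ∃ c : (Fin 2 → ℤ) → ℝ,
    (∀ x ∈ D, 1 ≤ ⟪chi (pm nu2) x, ∑ y ∈ D, c y • chi (pm nu2) y⟫_ℝ) ∧
      cap (pm nu2) D = ‖∑ y ∈ D, c y • chi (pm nu2) y‖ ^ 2 := by
  obtain ⟨c, h1, h2, -⟩ := cap_spec (pm nu2) mu_symm mu_ball_pos D
  exact ⟨c, h1, h2⟩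

lemma hP2 (D : Set (Fin 2 → ℤ)) (hD : D.Finite) (g : Lp ℂ 2 (pm nu2))
    (hg : ∀ x ∈ D, 1 ≤ ⟪chi (pm nu2) x, g⟫_ℝ) : cap (pm nu2) D ≤ ‖g‖ ^ 2 := by
  obtain ⟨c, -, -, h3, -⟩ := cap_spec (pm nu2) mu_symm mu_ball_pos hD.toFinset
  have := h3 g (fun x hx => hg x (hD.mem_toFinset.1 hx))
  rwa [Set.Finite.coe_toFinset] at this

lemma exists_eqPot (D : Set (Fin 2 → ℤ)) (hD : D.Finite) : ∃ h, IsEqPot (pm nu2) D h := by
  obtain ⟨c, -, -, -, h4⟩ := cap_spec (pm nu2) mu_symm mu_ball_pos hD.toFinset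
  rwa [Set.Finite.coe_toFinset] at h4

lemma cap_col_le (L : ℕ) (hL : 1 ≤ L) : cap (pm nu2) (col L) ≤ 4 * √L := by
  have hL0 : (0 : ℝ) < L := by exact_mod_cast hL
  have hL1 : (1 : ℝ) ≤ L := by exact_mod_cast hL
  set δ : ℝ := (L : ℝ)⁻¹ with hδ
  have hδ0 : 0 < δ := by positivity
  have hδ1 : δ ≤ π := (inv_le_one_of_one_le₀ hL1).trans (by linarith [pi_gt_three])
  set S : Set (EuclideanSpace ℝ (Fin 2)) := {l | |l 1| ≤ δ} with hS
  have hSm : MeasurableSet S := measurableSet_le (by fun_prop) measurable_const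
  have hmass : √δ ≤ (pm nu2).real S := by
    refine (ENNReal.ofReal_le_iff_le_toReal (measure_ne_top _ _)).1 ?_
    unfold pm
    rw [Measure.map_apply measurable_Phi hSm]
    have : Phi ⁻¹' S = univ ×ˢ Icc (-δ) δ := by
      ext p
      simp [hS, Phi_one, abs_le]
    rw [this, Measure.prod_prod, nu1_univ]
    refine le_trans ?_ (mul_le_mul_right (nu2_Icc_ge hδ0 hδ1) _)
    rw [← ENNReal.ofReal_mul (by positivity)]
    refine ENNReal.ofReal_le_ofReal ?_
    nlinarith [pi_gt_three, Real.sqrt_nonneg δ]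
  have hs0 : 0 < √δ := Real.sqrt_pos.2 hδ0
  obtain ⟨g, hg1, hg2⟩ := test_indicator (pm nu2) hSm (lt_of_lt_of_le hs0 hmass)
  refine (hP2 _ (finite_col L) g (fun x hx => hg2 x (fun l hl => ?_))).trans ?_
  · rw [ph_eq, hx.1]
    have h1 : |(x 1 : ℝ)| ≤ L := by exact_mod_cast hx.2
    have h2 : |l 1| ≤ δ := hl
    simp only [Int.cast_zero, mul_zero, zero_add, abs_mul]
    calc |l 1| * |(x 1 : ℝ)| ≤ δ * L := mul_le_mul h2 h1 (abs_nonneg _) hδ0.le
      _ = 1 := inv_mul_cancel₀ hL0.ne'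
  · rw [hg1]
    calc 4 / (pm nu2).real S ≤ 4 / √δ := div_le_div_of_nonneg_left (by norm_num) hs0 hmass
      _ = 4 * √L := by rw [hδ, Real.sqrt_inv, div_inv_eq_mul]

lemma cond_C {ε : ℝ} (hε : 0 < ε) :
    Tendsto (fun T : ℝ => cap (pm nu2) (latBall 2 (T + T ^ (1 - ε))) / cap (pm nu2) (latBall 2 T))
      atTop (𝓝 1) :=
  cp_ratio_tendsto (chi (pm nu2)) (Kc (pm nu2)) (cap (pm nu2)) (real_inner_chi_chi _ mu_symm)
    Kc_col hP1 hP2 (A := 4) (B := 8 * π + 4 * π ^ 2) (by norm_num) (by have := pi_pos; positivity)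
    cap_col_le col_energy hε

end Pool.Agent.Lib.MP_ecc084_pr
end
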